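import Pool.Agent.H83.AR.Targets

/-! BZ. The angular kernel has bounded integral. -/

set_option autoImplicit false

namespace Pool.Agent.H60.BR

open MeasureTheory Set FourierTransform
open Pool.Agent.H83.AR Pool.Agent.H93.AR Pool.Agent.H83.LS Pool.Agent.H54.LS Pool.Agent.H14.LS
open scoped ENNReal NNReal

/-- BZ -/
theorem pf_bz (hSBL : T_SBL) : T_BZ := by
  intro n hn
  obtain ⟨C, hC, h⟩ := hSBL n (by omega)
  refine ⟨⟨2 * C, by positivity⟩, fun L v hL => ?_⟩
  have hv : ‖(v : EE n)‖ = 1 := by simpa using v.2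
  have h1 := (h L v hL hv).1
  have h2 := (h L (-v) hL (by rw [norm_neg, hv])).1
  have hL0 : 0 < L := by linarith
  have hp : 0 < L ^ (n - 1) := by positivity
  have h3 : ∀ w : Sp n, ENNReal.ofReal (bz n L v w) = ENNReal.ofReal (L ^ (n - 1)) *
      (ENNReal.ofReal (((1 + L * ‖(v : EE n) - w‖) ^ (n + 1))⁻¹) +
        ENNReal.ofReal (((1 + L * ‖-(v : EE n) - w‖) ^ (n + 1))⁻¹)) := by
    intro w
    rw [bz, ENNReal.ofReal_mul hp.le, ENNReal.ofReal_add (by positivity) (by positivity),
      ← norm_neg ((v : EE n) + w), neg_add']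
  have hm : Measurable fun w : Sp n =>
      ENNReal.ofReal (((1 + L * ‖(v : EE n) - w‖) ^ (n + 1))⁻¹) := by
    fun_prop
  rw [lintegral_congr h3, lintegral_const_mul' _ _ ENNReal.ofReal_ne_top, lintegral_add_left hm]
  calc ENNReal.ofReal (L ^ (n - 1)) * (_ + _)
      ≤ ENNReal.ofReal (L ^ (n - 1)) * (ENNReal.ofReal (C * (L ^ (n - 1))⁻¹) +
        ENNReal.ofReal (C * (L ^ (n - 1))⁻¹)) := by gcongr
    _ = ENNReal.ofReal (2 * C) := by
        rw [← ENNReal.ofReal_add (by positivity) (by positivity), ← ENNReal.ofReal_mul hp.le]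
        congr 1
        field_simp
        ring
    _ = _ := by
        rw [ENNReal.ofReal, Real.toNNReal_of_nonneg (by positivity)]
        rfl

end Pool.Agent.H60.BR
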