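import Pool.Agent.H84.B2.Targets

/-!
Module QD: integrals over the quadrant.
-/

set_option autoImplicit false

namespace Pool.Agent.H60.BR

open MeasureTheory Set
open Pool.Agent.H84.B2
open scoped ENNReal NNReal

namespace QD

/-- the shell weight -/
noncomputable def gg (lam t ρ r : ℝ) : ℝ≥0∞ :=
  ENNReal.ofReal (((1 + lam * |Real.sqrt (r ^ 2 + ρ ^ 2) - t|) ^ 2)⁻¹)

theorem gg_meas (lam t : ℝ) : Measurable fun p : ℝ × ℝ => gg lam t p.1 p.2 := by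
  unfold gg
  fun_prop

/-- the hypothesis CSL with its constant -/
def HC (C : ℝ) : Prop := ∀ lam b t : ℝ, 0 < lam →
  ∫⁻ z in {z : ℝ | 0 < z ∧ Real.sqrt (b ^ 2 + z ^ 2) ≤ 4 * z},
    ENNReal.ofReal (((1 + lam * |Real.sqrt (b ^ 2 + z ^ 2) - t|) ^ 2)⁻¹) ≤
  ENNReal.ofReal (C / lam)

theorem sqrt_le {b z : ℝ} (hb : 0 ≤ b) (h : b ≤ z) : Real.sqrt (b ^ 2 + z ^ 2) ≤ 4 * z := by
  rw [Real.sqrt_le_left (by linarith)]
  nlinarith

/-- the part `r > ρ` -/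
noncomputable def I2 (lam t ρ r : ℝ) : ℝ≥0∞ := if ρ < r then gg lam t ρ r else 0

/-- the part `r ≤ ρ` -/
noncomputable def I1 (lam t ρ r : ℝ) : ℝ≥0∞ := if r ≤ ρ then gg lam t ρ r else 0

theorem I2_meas (lam t : ℝ) : Measurable fun p : ℝ × ℝ => I2 lam t p.1 p.2 := by
  unfold I2
  exact Measurable.ite (measurableSet_lt measurable_fst measurable_snd) (gg_meas lam t)
    measurable_const

theorem I1_meas (lam t : ℝ) : Measurable fun p : ℝ × ℝ => I1 lam t p.1 p.2 := by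
  unfold I1
  exact Measurable.ite (measurableSet_le measurable_snd measurable_fst) (gg_meas lam t)
    measurable_const

theorem split (lam t ρ r : ℝ) : gg lam t ρ r = I1 lam t ρ r + I2 lam t ρ r := by
  unfold I1 I2
  by_cases h : r ≤ ρ
  · rw [if_pos h, if_neg (not_lt.2 h), add_zero]
  · rw [if_neg h, if_pos (not_le.1 h), zero_add]

theorem I2_int {C : ℝ} (hC : HC C) {lam ρ : ℝ} (t : ℝ) (hl : 0 < lam) (hρ : 0 < ρ) :
    ∫⁻ r : ℝ, I2 lam t ρ r ≤ ENNReal.ofReal (C / lam) := by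
  have h1 : ∀ r, I2 lam t ρ r ≤ {z : ℝ | 0 < z ∧ Real.sqrt (ρ ^ 2 + z ^ 2) ≤ 4 * z}.indicator
      (fun z => ENNReal.ofReal (((1 + lam * |Real.sqrt (ρ ^ 2 + z ^ 2) - t|) ^ 2)⁻¹)) r := by
    intro r
    unfold I2
    split_ifs with h
    · have hm : r ∈ {z : ℝ | 0 < z ∧ Real.sqrt (ρ ^ 2 + z ^ 2) ≤ 4 * z} :=
        ⟨hρ.trans h, sqrt_le hρ.le h.le⟩
      rw [indicator_of_mem hm]
      unfold gg
      rw [add_comm (r ^ 2)]
    · exact zero_le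
  refine (lintegral_mono h1).trans ((lintegral_indicator_le _ _).trans (hC lam ρ t hl))

theorem I1_int {C : ℝ} (hC : HC C) {lam r : ℝ} (t : ℝ) (hl : 0 < lam) (hr : 0 < r) :
    ∫⁻ ρ : ℝ, I1 lam t ρ r ≤ ENNReal.ofReal (C / lam) := by
  have h1 : ∀ ρ, I1 lam t ρ r ≤ {z : ℝ | 0 < z ∧ Real.sqrt (r ^ 2 + z ^ 2) ≤ 4 * z}.indicator
      (fun z => ENNReal.ofReal (((1 + lam * |Real.sqrt (r ^ 2 + z ^ 2) - t|) ^ 2)⁻¹)) ρ := by
    intro ρ
    unfold I1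
    split_ifs with h
    · have hm : ρ ∈ {z : ℝ | 0 < z ∧ Real.sqrt (r ^ 2 + z ^ 2) ≤ 4 * z} :=
        ⟨hr.trans_le h, sqrt_le hr.le h⟩
      rw [indicator_of_mem hm]
      unfold gg
      exact le_rfl
    · exact zero_le
  refine (lintegral_mono h1).trans ((lintegral_indicator_le _ _).trans (hC lam r t hl))

/-- the tail integral -/
theorem tail {C : ℝ} (hC : HC C) {α : ℝ} (hα : 0 < α) :
    ∫⁻ r in Ioi (0 : ℝ), ENNReal.ofReal (((1 + r / α) ^ 2)⁻¹) ≤ ENNReal.ofReal (C * α) := by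
  have h1 := hC (1 / α) 0 0 (by positivity)
  have h2 : {z : ℝ | 0 < z ∧ Real.sqrt (0 ^ 2 + z ^ 2) ≤ 4 * z} = Ioi 0 := by
    ext z
    constructor
    · exact fun h => h.1
    · exact fun h => ⟨h, sqrt_le le_rfl (le_of_lt h)⟩
  rw [h2] at h1
  have h3 : C / (1 / α) = C * α := by field_simp
  rw [h3] at h1
  refine le_trans (le_of_eq ?_) h1
  refine setLIntegral_congr_fun measurableSet_Ioi fun z hz => ?_
  have hz0 : (0 : ℝ) < z := hz
  rw [zero_pow two_ne_zero, zero_add, Real.sqrt_sq hz0.le, sub_zero, abs_of_pos hz0]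
  congr 4
  ring

theorem swap1 {C : ℝ} (hC : HC C) {lam : ℝ} (t : ℝ) (hl : 0 < lam) (S₁ S₂ : Set ℝ)
    (hS₁ : MeasurableSet S₁) (hS : S₁ ⊆ Ioi 0) (w : ℝ → ℝ≥0∞) (hw : Measurable w) :
    ∫⁻ ρ in S₂, ∫⁻ r in S₁, w r * I1 lam t ρ r ≤ (∫⁻ r in S₁, w r) * ENNReal.ofReal (C / lam) := by
  have hm : Measurable fun p : ℝ × ℝ => w p.2 * I1 lam t p.1 p.2 :=
    (hw.comp measurable_snd).mul (I1_meas lam t)
  rw [lintegral_lintegral_swap hm.aemeasurable, ← lintegral_mul_const' _ _ ENNReal.ofReal_ne_top]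
  refine setLIntegral_mono' hS₁ fun r hr => ?_
  have hr0 : 0 < r := hS hr
  have hm1 : Measurable fun ρ : ℝ => I1 lam t ρ r :=
    (I1_meas lam t).comp (g := fun p : ℝ × ℝ => I1 lam t p.1 p.2) (f := fun ρ => (ρ, r))
      (by fun_prop)
  rw [lintegral_const_mul _ hm1]
  gcongr
  exact (setLIntegral_le_lintegral _ _).trans (I1_int hC t hl hr0)

theorem swap2 {C : ℝ} (hC : HC C) {lam : ℝ} (t : ℝ) (hl : 0 < lam) (S₁ S₂ : Set ℝ)
    (hS₂ : MeasurableSet S₂) (hS : S₂ ⊆ Ioi 0) (w : ℝ → ℝ≥0∞) :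
    ∫⁻ ρ in S₂, ∫⁻ r in S₁, w ρ * I2 lam t ρ r ≤ (∫⁻ ρ in S₂, w ρ) * ENNReal.ofReal (C / lam) := by
  rw [← lintegral_mul_const' _ _ ENNReal.ofReal_ne_top]
  refine setLIntegral_mono' hS₂ fun ρ hρ => ?_
  have hρ0 : 0 < ρ := hS hρ
  have hm1 : Measurable fun r : ℝ => I2 lam t ρ r :=
    (I2_meas lam t).comp (g := fun p : ℝ × ℝ => I2 lam t p.1 p.2) (f := fun r => (ρ, r))
      (by fun_prop)
  rw [lintegral_const_mul _ hm1]
  gcongr
  exact (setLIntegral_le_lintegral _ _).trans (I2_int hC t hl hρ0)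

theorem box_le (r₀ δ : ℝ) : volume {r : ℝ | 0 < r ∧ |r - r₀| ≤ δ} ≤ ENNReal.ofReal (2 * δ) := by
  have h1 : {r : ℝ | 0 < r ∧ |r - r₀| ≤ δ} ⊆ Icc (r₀ - δ) (r₀ + δ) := by
    rintro r ⟨-, h⟩
    rw [abs_le] at h
    exact ⟨by linarith [h.1], by linarith [h.2]⟩
  refine (measure_mono h1).trans (le_of_eq ?_)
  rw [Real.volume_Icc]
  congr 1
  ring

theorem box_meas (r₀ δ : ℝ) : MeasurableSet {r : ℝ | 0 < r ∧ |r - r₀| ≤ δ} := by
  have h1 : Measurable fun r : ℝ => |r - r₀| := by fun_prop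
  exact (measurableSet_lt measurable_const measurable_id).inter
    (measurableSet_le h1 measurable_const)

/-- second part -/
theorem part2 {C : ℝ} (hC0 : 0 ≤ C) (hC : HC C) {lam t δ₁ δ₂ r₀ ρ₀ : ℝ} (hl : 1 ≤ lam)
    (h₁ : 0 < δ₁) (h₂ : 0 < δ₂) :
    ∫⁻ ρ in {ρ : ℝ | 0 < ρ ∧ |ρ - ρ₀| ≤ δ₂}, ∫⁻ r in {r : ℝ | 0 < r ∧ |r - r₀| ≤ δ₁},
      ENNReal.ofReal (((1 + lam * |Real.sqrt (r ^ 2 + ρ ^ 2) - t|) ^ 2)⁻¹) ≤
      ENNReal.ofReal (2 * C) * ENNReal.ofReal ((δ₁ + δ₂) / lam) := by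
  have hl0 : 0 < lam := by linarith
  have hI1 : ∀ ρ, Measurable fun r : ℝ => I1 lam t ρ r := fun ρ =>
    (I1_meas lam t).comp (g := fun p : ℝ × ℝ => I1 lam t p.1 p.2) (f := fun r => (ρ, r))
      (by fun_prop)
  set S₁ := {r : ℝ | 0 < r ∧ |r - r₀| ≤ δ₁} with hS₁
  set S₂ := {ρ : ℝ | 0 < ρ ∧ |ρ - ρ₀| ≤ δ₂} with hS₂
  have hm1 : Measurable fun ρ : ℝ => ∫⁻ r in S₁, I1 lam t ρ r :=
    Measurable.lintegral_prod_right' (ν := volume.restrict S₁) (I1_meas lam t)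
  calc ∫⁻ ρ in S₂, ∫⁻ r in S₁,
        ENNReal.ofReal (((1 + lam * |Real.sqrt (r ^ 2 + ρ ^ 2) - t|) ^ 2)⁻¹)
      = ∫⁻ ρ in S₂, ∫⁻ r in S₁, (I1 lam t ρ r + I2 lam t ρ r) := by
        refine lintegral_congr fun ρ => lintegral_congr fun r => ?_
        rw [← split]
        rfl
    _ = ∫⁻ ρ in S₂, ((∫⁻ r in S₁, I1 lam t ρ r) + ∫⁻ r in S₁, I2 lam t ρ r) :=
        lintegral_congr fun ρ => lintegral_add_left (hI1 ρ) _
    _ = (∫⁻ ρ in S₂, ∫⁻ r in S₁, I1 lam t ρ r) + ∫⁻ ρ in S₂, ∫⁻ r in S₁, I2 lam t ρ r :=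
        lintegral_add_left hm1 _
    _ ≤ ENNReal.ofReal (2 * δ₁) * ENNReal.ofReal (C / lam) +
        ENNReal.ofReal (2 * δ₂) * ENNReal.ofReal (C / lam) := by
        have h3 := swap1 hC t hl0 S₁ S₂ (box_meas r₀ δ₁) (fun r hr => hr.1) (fun _ => 1)
          measurable_const
        have h4 := swap2 hC t hl0 S₁ S₂ (box_meas ρ₀ δ₂) (fun r hr => hr.1) (fun _ => 1)
        simp only [one_mul, lintegral_const, Measure.restrict_apply MeasurableSet.univ,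
          univ_inter] at h3 h4
        refine add_le_add (h3.trans ?_) (h4.trans ?_)
        · gcongr
          exact box_le r₀ δ₁
        · gcongr
          exact box_le ρ₀ δ₂
    _ = ENNReal.ofReal (2 * C) * ENNReal.ofReal ((δ₁ + δ₂) / lam) := by
        rw [← add_mul, ← ENNReal.ofReal_add (by positivity) (by positivity),
          ← ENNReal.ofReal_mul (by positivity), ← ENNReal.ofReal_mul (by positivity)]
        congr 1
        ring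

/-- pointwise bound, `r ≤ ρ` -/
theorem pw1 {a : ℕ} {α lam x r : ℝ} (hα : 0 < α) (hl : 0 ≤ lam) (hx : 0 ≤ x) (hr : 0 < r) :
    ((1 + lam * x) ^ (a + 3))⁻¹ * ((1 + r / α) ^ (a + 3))⁻¹ * r ^ a ≤
      α ^ a * ((1 + r / α) ^ 2)⁻¹ * ((1 + lam * x) ^ 2)⁻¹ := by
  have h1 : ((1 + lam * x) ^ (a + 3))⁻¹ ≤ ((1 + lam * x) ^ 2)⁻¹ := by
    apply inv_anti₀ (by positivity)
    apply pow_le_pow_right₀ _ (by omega)
    have : 0 ≤ lam * x := by positivity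
    linarith
  have h2 : ((1 + r / α) ^ (a + 3))⁻¹ * r ^ a ≤ α ^ a * ((1 + r / α) ^ 2)⁻¹ := by
    have h3 : r ^ a ≤ α ^ a * (1 + r / α) ^ a := by
      rw [← mul_pow]
      apply pow_le_pow_left₀ hr.le
      have : α * (1 + r / α) = α + r := by field_simp
      rw [this]
      linarith
    have h4 : (0 : ℝ) < 1 + r / α := by positivity
    have h5 : (1 : ℝ) ≤ 1 + r / α := by
      have : 0 ≤ r / α := by positivity
      linarith
    rw [inv_mul_le_iff₀ (by positivity)]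
    generalize 1 + r / α = u at h3 h4 h5 ⊢
    calc r ^ a ≤ α ^ a * u ^ a := h3
      _ ≤ α ^ a * u ^ (a + 1) := by
          have h6 : u ^ a ≤ u ^ (a + 1) := pow_le_pow_right₀ h5 (by omega)
          gcongr
      _ = u ^ (a + 3) * (α ^ a * (u ^ 2)⁻¹) := by
          rw [show u ^ (a + 3) = u ^ (a + 1) * u ^ 2 by ring]
          field_simp
  calc ((1 + lam * x) ^ (a + 3))⁻¹ * ((1 + r / α) ^ (a + 3))⁻¹ * r ^ a
      = ((1 + lam * x) ^ (a + 3))⁻¹ * (((1 + r / α) ^ (a + 3))⁻¹ * r ^ a) := by ring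
    _ ≤ ((1 + lam * x) ^ 2)⁻¹ * (α ^ a * ((1 + r / α) ^ 2)⁻¹) := by gcongr
    _ = _ := by ring

/-- pointwise bound, `ρ < r`, `1/3 ≤ r` -/
theorem pw2 {a : ℕ} {α lam x r ρ : ℝ} (hα : 0 < α) (hα4 : α ≤ 4) (hl : 0 ≤ lam) (hx : 0 ≤ x)
    (hρ : 0 < ρ) (hρr : ρ < r) (hr3 : 1 / 3 ≤ r) :
    ((1 + lam * x) ^ (a + 3))⁻¹ * ((1 + r / α) ^ (a + 3))⁻¹ * r ^ a ≤
      1024 * α ^ (a + 1) * ((1 + ρ) ^ 2)⁻¹ * ((1 + lam * x) ^ 2)⁻¹ := by
  have hr : 0 < r := hρ.trans hρr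
  have h1 : ((1 + lam * x) ^ (a + 3))⁻¹ ≤ ((1 + lam * x) ^ 2)⁻¹ := by
    apply inv_anti₀ (by positivity)
    apply pow_le_pow_right₀ _ (by omega)
    have : 0 ≤ lam * x := by positivity
    linarith
  have h2 : ((1 + r / α) ^ (a + 3))⁻¹ * r ^ a ≤ 1024 * α ^ (a + 1) * ((1 + ρ) ^ 2)⁻¹ := by
    rw [inv_mul_le_iff₀ (by positivity)]
    have h3 : (r / α) ^ (a + 3) ≤ (1 + r / α) ^ (a + 3) := by
      apply pow_le_pow_left₀ (by positivity)
      linarith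
    have h4 : (r / α) ^ (a + 3) = r ^ a * r ^ 3 / (α ^ (a + 1) * α ^ 2) := by
      rw [div_pow, pow_add, ← pow_add α]
    have h5 : (1 + ρ) ^ 2 ≤ 16 * r ^ 2 := by nlinarith
    have h6 : α ^ 2 ≤ 16 := by nlinarith
    have h7 : r ^ a ≤ r ^ a * r ^ 3 / (α ^ (a + 1) * α ^ 2) *
        (1024 * α ^ (a + 1) * ((1 + ρ) ^ 2)⁻¹) := by
      have h8 : r ^ a * r ^ 3 / (α ^ (a + 1) * α ^ 2) * (1024 * α ^ (a + 1) * ((1 + ρ) ^ 2)⁻¹) =
          r ^ a * (1024 * r ^ 3 / (α ^ 2 * (1 + ρ) ^ 2)) := by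
        field_simp
      rw [h8]
      apply le_mul_of_one_le_right (by positivity)
      rw [le_div_iff₀ (by positivity), one_mul]
      calc α ^ 2 * (1 + ρ) ^ 2 ≤ 16 * (16 * r ^ 2) := by gcongr
        _ = 256 * r ^ 2 := by ring
        _ ≤ 1024 * r ^ 3 := by nlinarith [sq_nonneg r]
    refine h7.trans ?_
    rw [← h4]
    gcongr
  calc ((1 + lam * x) ^ (a + 3))⁻¹ * ((1 + r / α) ^ (a + 3))⁻¹ * r ^ a
      = ((1 + lam * x) ^ (a + 3))⁻¹ * (((1 + r / α) ^ (a + 3))⁻¹ * r ^ a) := by ring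
    _ ≤ ((1 + lam * x) ^ 2)⁻¹ * (1024 * α ^ (a + 1) * ((1 + ρ) ^ 2)⁻¹) := by gcongr
    _ = _ := by ring

/-- pointwise bound, `r < 1/2`, `|R - t| ≥ 1/2` -/
theorem pw3 {a : ℕ} {α lam x r : ℝ} (hα : 0 < α) (hl : 1 ≤ lam) (hαl : 1 ≤ α * lam)
    (hx : 1 / 2 ≤ x) (hr : 0 < r) (hr1 : r ≤ 1) :
    ((1 + lam * x) ^ (a + 3))⁻¹ * ((1 + r / α) ^ (a + 3))⁻¹ * r ^ a ≤
      2 ^ (a + 3) * (α ^ (a + 1) * lam⁻¹) := by
  have hl0 : 0 < lam := by linarith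
  have h1 : ((1 + lam * x) ^ (a + 3))⁻¹ ≤ ((lam / 2) ^ (a + 3))⁻¹ := by
    apply inv_anti₀ (by positivity)
    apply pow_le_pow_left₀ (by positivity)
    nlinarith
  have h2 : ((1 + r / α) ^ (a + 3))⁻¹ ≤ 1 := by
    apply inv_le_one_of_one_le₀
    apply one_le_pow₀
    have : 0 ≤ r / α := by positivity
    linarith
  have h3 : r ^ a ≤ 1 := pow_le_one₀ hr.le hr1
  have h4 : ((lam / 2) ^ (a + 3))⁻¹ ≤ 2 ^ (a + 3) * (α ^ (a + 1) * lam⁻¹) := by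
    rw [div_pow, inv_div, div_le_iff₀ (by positivity)]
    have h5 : 1 ≤ α ^ (a + 1) * lam⁻¹ * lam ^ (a + 3) := by
      have h6 : α ^ (a + 1) * lam⁻¹ * lam ^ (a + 3) = (α * lam) ^ (a + 1) * lam := by
        rw [mul_pow]
        field_simp
        ring
      rw [h6]
      exact one_le_mul_of_one_le_of_one_le (one_le_pow₀ hαl) hl
    calc (2 : ℝ) ^ (a + 3) = 2 ^ (a + 3) * 1 := by ring
      _ ≤ 2 ^ (a + 3) * (α ^ (a + 1) * lam⁻¹ * lam ^ (a + 3)) := by gcongr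
      _ = _ := by ring
  calc ((1 + lam * x) ^ (a + 3))⁻¹ * ((1 + r / α) ^ (a + 3))⁻¹ * r ^ a
      ≤ ((lam / 2) ^ (a + 3))⁻¹ * 1 * 1 := by gcongr
    _ = ((lam / 2) ^ (a + 3))⁻¹ := by ring
    _ ≤ _ := h4

/-- the part near the origin -/
noncomputable def J3 (c : ℝ≥0∞) (ρ r : ℝ) : ℝ≥0∞ :=
  (Ioo (0 : ℝ) (1 / 2)).indicator (fun _ => c) ρ * (Ioo (0 : ℝ) (1 / 2)).indicator (fun _ => 1) r

/-- pointwise bound -/
theorem pw {a : ℕ} {lam Lam t ρ r : ℝ} (hl : 1 ≤ lam) (hL : Real.sqrt lam ≤ Lam)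
    (hL4 : Lam ≤ 4 * lam) (ht : t ∈ Icc (1 : ℝ) 2) (hρ : 0 < ρ) (hr : 0 < r) :
    ENNReal.ofReal (((1 + lam * |Real.sqrt (r ^ 2 + ρ ^ 2) - t|) ^ (a + 3))⁻¹ *
        ((1 + lam / Lam * r) ^ (a + 3))⁻¹ * r ^ a) ≤
      ENNReal.ofReal ((Lam / lam) ^ a) * ENNReal.ofReal (((1 + r / (Lam / lam)) ^ 2)⁻¹) *
        I1 lam t ρ r +
      (ENNReal.ofReal (1024 * (Lam / lam) ^ (a + 1)) * ENNReal.ofReal (((1 + ρ / 1) ^ 2)⁻¹) *
        I2 lam t ρ r + J3 (ENNReal.ofReal (2 ^ (a + 3) * ((Lam / lam) ^ (a + 1) * lam⁻¹))) ρ r) := by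
  have hl0 : 0 < lam := by linarith
  have hs1 : 1 ≤ Real.sqrt lam := by
    rw [show (1 : ℝ) = Real.sqrt 1 by simp]
    exact Real.sqrt_le_sqrt hl
  have hL1 : 1 ≤ Lam := hs1.trans hL
  have hL0 : 0 < Lam := by linarith
  have hα : 0 < Lam / lam := by positivity
  have hα4 : Lam / lam ≤ 4 := by rwa [div_le_iff₀ hl0]
  have hαl : 1 ≤ Lam / lam * lam := by rwa [div_mul_cancel₀ _ hl0.ne']
  have h0 : lam / Lam * r = r / (Lam / lam) := by field_simp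
  rw [h0, div_one]
  set α := Lam / lam with hαd
  set R := Real.sqrt (r ^ 2 + ρ ^ 2) with hR
  have hx : 0 ≤ |R - t| := abs_nonneg _
  by_cases h1 : r ≤ ρ
  · refine le_trans ?_ le_self_add
    unfold I1 gg
    rw [if_pos h1, ← hR, ← ENNReal.ofReal_mul (by positivity), ← ENNReal.ofReal_mul (by positivity)]
    exact ENNReal.ofReal_le_ofReal (pw1 hα hl0.le hx hr)
  · have h2 : ρ < r := not_le.1 h1
    refine le_trans ?_ le_add_self
    by_cases h3 : 1 / 2 ≤ R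
    · refine le_trans ?_ le_self_add
      have h4 : 1 / 3 ≤ r := by
        have h5 : R ^ 2 = r ^ 2 + ρ ^ 2 := Real.sq_sqrt (by positivity)
        by_contra hc
        push Not at hc
        nlinarith
      unfold I2 gg
      rw [if_pos h2, ← hR, ← ENNReal.ofReal_mul (by positivity),
        ← ENNReal.ofReal_mul (by positivity)]
      exact ENNReal.ofReal_le_ofReal (pw2 hα hα4 hl0.le hx hρ h2 h4)
    · push Not at h3
      refine le_trans ?_ le_add_self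
      have h5 : r ≤ R := Real.le_sqrt_of_sq_le (by nlinarith)
      unfold J3
      rw [indicator_of_mem (show ρ ∈ Ioo (0 : ℝ) (1 / 2) from ⟨hρ, by linarith⟩),
        indicator_of_mem (show r ∈ Ioo (0 : ℝ) (1 / 2) from ⟨hr, by linarith⟩), mul_one]
      refine ENNReal.ofReal_le_ofReal (pw3 hα hl hαl ?_ hr (by linarith))
      rw [abs_sub_comm]
      refine le_trans ?_ (le_abs_self _)
      linarith [ht.1]

/-- first part -/
theorem part1 {C : ℝ} (hC0 : 0 ≤ C) (hC : HC C) {a : ℕ} {lam Lam t : ℝ} (hl : 1 ≤ lam)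
    (hL : Real.sqrt lam ≤ Lam) (hL4 : Lam ≤ 4 * lam) (ht : t ∈ Icc (1 : ℝ) 2) :
    ∫⁻ ρ in Ioi (0 : ℝ), ∫⁻ r in Ioi (0 : ℝ),
      ENNReal.ofReal (((1 + lam * |Real.sqrt (r ^ 2 + ρ ^ 2) - t|) ^ (a + 3))⁻¹ *
        ((1 + lam / Lam * r) ^ (a + 3))⁻¹ * r ^ a) ≤
      ENNReal.ofReal (C ^ 2 + 1024 * C ^ 2 + 2 ^ (a + 3)) *
        ENNReal.ofReal (lam⁻¹ * (Lam / lam) ^ (a + 1)) := by
  have hl0 : 0 < lam := by linarith
  have hs1 : 1 ≤ Real.sqrt lam := by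
    rw [show (1 : ℝ) = Real.sqrt 1 by simp]
    exact Real.sqrt_le_sqrt hl
  have hL0 : 0 < Lam := by linarith
  have hα : 0 < Lam / lam := by positivity
  set α := Lam / lam with hαd
  have hw1 : Measurable fun r : ℝ => ENNReal.ofReal (α ^ a) *
      ENNReal.ofReal (((1 + r / α) ^ 2)⁻¹) := by fun_prop
  have hI1 : ∀ ρ, Measurable fun r : ℝ => I1 lam t ρ r := fun ρ =>
    (I1_meas lam t).comp (g := fun p : ℝ × ℝ => I1 lam t p.1 p.2) (f := fun r => (ρ, r))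
      (by fun_prop)
  have hI2 : ∀ ρ, Measurable fun r : ℝ => I2 lam t ρ r := fun ρ =>
    (I2_meas lam t).comp (g := fun p : ℝ × ℝ => I2 lam t p.1 p.2) (f := fun r => (ρ, r))
      (by fun_prop)
  have hm1 : Measurable fun ρ : ℝ => ∫⁻ r in Ioi (0 : ℝ), ENNReal.ofReal (α ^ a) *
      ENNReal.ofReal (((1 + r / α) ^ 2)⁻¹) * I1 lam t ρ r := by
    apply Measurable.lintegral_prod_right' (ν := volume.restrict (Ioi (0 : ℝ)))
      (f := fun p : ℝ × ℝ => ENNReal.ofReal (α ^ a) * ENNReal.ofReal (((1 + p.2 / α) ^ 2)⁻¹) *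
        I1 lam t p.1 p.2)
    exact (hw1.comp measurable_snd).mul (I1_meas lam t)
  have hm2 : Measurable fun ρ : ℝ => ∫⁻ r in Ioi (0 : ℝ), ENNReal.ofReal (1024 * α ^ (a + 1)) *
      ENNReal.ofReal (((1 + ρ / 1) ^ 2)⁻¹) * I2 lam t ρ r := by
    apply Measurable.lintegral_prod_right' (ν := volume.restrict (Ioi (0 : ℝ)))
      (f := fun p : ℝ × ℝ => ENNReal.ofReal (1024 * α ^ (a + 1)) *
        ENNReal.ofReal (((1 + p.1 / 1) ^ 2)⁻¹) * I2 lam t p.1 p.2)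
    refine Measurable.mul ?_ (I2_meas lam t)
    fun_prop
  set c := ENNReal.ofReal (2 ^ (a + 3) * (α ^ (a + 1) * lam⁻¹)) with hc
  have hA1 : ∫⁻ ρ in Ioi (0 : ℝ), ∫⁻ r in Ioi (0 : ℝ), ENNReal.ofReal (α ^ a) *
      ENNReal.ofReal (((1 + r / α) ^ 2)⁻¹) * I1 lam t ρ r ≤
      ENNReal.ofReal (C ^ 2) * ENNReal.ofReal (lam⁻¹ * α ^ (a + 1)) := by
    refine (swap1 hC t hl0 (Ioi 0) (Ioi 0) measurableSet_Ioi subset_rfl
      (fun r => ENNReal.ofReal (α ^ a) * ENNReal.ofReal (((1 + r / α) ^ 2)⁻¹)) hw1).trans ?_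
    rw [lintegral_const_mul' _ _ ENNReal.ofReal_ne_top]
    calc ENNReal.ofReal (α ^ a) * (∫⁻ r in Ioi (0 : ℝ), ENNReal.ofReal (((1 + r / α) ^ 2)⁻¹)) *
          ENNReal.ofReal (C / lam)
        ≤ ENNReal.ofReal (α ^ a) * ENNReal.ofReal (C * α) * ENNReal.ofReal (C / lam) := by
          gcongr
          exact tail hC hα
      _ = _ := by
          rw [← ENNReal.ofReal_mul (by positivity), ← ENNReal.ofReal_mul (by positivity),
            ← ENNReal.ofReal_mul (by positivity)]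
          congr 1
          field_simp
          ring
  have hA2 : ∫⁻ ρ in Ioi (0 : ℝ), ∫⁻ r in Ioi (0 : ℝ), ENNReal.ofReal (1024 * α ^ (a + 1)) *
      ENNReal.ofReal (((1 + ρ / 1) ^ 2)⁻¹) * I2 lam t ρ r ≤
      ENNReal.ofReal (1024 * C ^ 2) * ENNReal.ofReal (lam⁻¹ * α ^ (a + 1)) := by
    refine (swap2 hC t hl0 (Ioi 0) (Ioi 0) measurableSet_Ioi subset_rfl
      (fun ρ => ENNReal.ofReal (1024 * α ^ (a + 1)) *
        ENNReal.ofReal (((1 + ρ / 1) ^ 2)⁻¹))).trans ?_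
    rw [lintegral_const_mul' _ _ ENNReal.ofReal_ne_top]
    calc ENNReal.ofReal (1024 * α ^ (a + 1)) *
          (∫⁻ r in Ioi (0 : ℝ), ENNReal.ofReal (((1 + r / 1) ^ 2)⁻¹)) * ENNReal.ofReal (C / lam)
        ≤ ENNReal.ofReal (1024 * α ^ (a + 1)) * ENNReal.ofReal (C * 1) *
          ENNReal.ofReal (C / lam) := by
          gcongr
          exact tail hC one_pos
      _ = _ := by
          rw [← ENNReal.ofReal_mul (by positivity), ← ENNReal.ofReal_mul (by positivity),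
            ← ENNReal.ofReal_mul (by positivity)]
          congr 1
          field_simp
  have hA3 : ∫⁻ ρ in Ioi (0 : ℝ), ∫⁻ r in Ioi (0 : ℝ), J3 c ρ r ≤
      ENNReal.ofReal (2 ^ (a + 3)) * ENNReal.ofReal (lam⁻¹ * α ^ (a + 1)) := by
    have h1 : ∀ ρ, ∫⁻ r in Ioi (0 : ℝ), J3 c ρ r ≤ (Ioo (0 : ℝ) (1 / 2)).indicator (fun _ => c) ρ := by
      intro ρ
      unfold J3
      rw [lintegral_const_mul _ (measurable_const.indicator measurableSet_Ioo)]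
      refine mul_le_of_le_one_right zero_le ?_
      refine (setLIntegral_le_lintegral _ _).trans ?_
      rw [lintegral_indicator measurableSet_Ioo, lintegral_const, one_mul,
        Measure.restrict_apply_univ, Real.volume_Ioo]
      rw [← ENNReal.ofReal_one]
      exact ENNReal.ofReal_le_ofReal (by norm_num)
    refine (lintegral_mono h1).trans ((setLIntegral_le_lintegral _ _).trans ?_)
    rw [lintegral_indicator measurableSet_Ioo, lintegral_const,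
        Measure.restrict_apply_univ, Real.volume_Ioo]
    calc c * ENNReal.ofReal (1 / 2 - 0) ≤ c * ENNReal.ofReal 1 := by
          gcongr
          norm_num
      _ = _ := by
          rw [hc, ← ENNReal.ofReal_mul (by positivity), ← ENNReal.ofReal_mul (by positivity)]
          congr 1
          ring
  calc ∫⁻ ρ in Ioi (0 : ℝ), ∫⁻ r in Ioi (0 : ℝ),
        ENNReal.ofReal (((1 + lam * |Real.sqrt (r ^ 2 + ρ ^ 2) - t|) ^ (a + 3))⁻¹ *
          ((1 + lam / Lam * r) ^ (a + 3))⁻¹ * r ^ a)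
      ≤ ∫⁻ ρ in Ioi (0 : ℝ), ∫⁻ r in Ioi (0 : ℝ), (ENNReal.ofReal (α ^ a) *
          ENNReal.ofReal (((1 + r / α) ^ 2)⁻¹) * I1 lam t ρ r +
          (ENNReal.ofReal (1024 * α ^ (a + 1)) * ENNReal.ofReal (((1 + ρ / 1) ^ 2)⁻¹) *
          I2 lam t ρ r + J3 c ρ r)) :=
        setLIntegral_mono' measurableSet_Ioi fun ρ hρ =>
          setLIntegral_mono' measurableSet_Ioi fun r hr => pw hl hL hL4 ht hρ hr
    _ = ∫⁻ ρ in Ioi (0 : ℝ), ((∫⁻ r in Ioi (0 : ℝ), ENNReal.ofReal (α ^ a) *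
          ENNReal.ofReal (((1 + r / α) ^ 2)⁻¹) * I1 lam t ρ r) +
          ((∫⁻ r in Ioi (0 : ℝ), ENNReal.ofReal (1024 * α ^ (a + 1)) *
          ENNReal.ofReal (((1 + ρ / 1) ^ 2)⁻¹) * I2 lam t ρ r) +
          ∫⁻ r in Ioi (0 : ℝ), J3 c ρ r)) := by
        refine lintegral_congr fun ρ => ?_
        have h1 : Measurable fun r : ℝ => ENNReal.ofReal (α ^ a) *
            ENNReal.ofReal (((1 + r / α) ^ 2)⁻¹) * I1 lam t ρ r := hw1.mul (hI1 ρ)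
        have h2 : Measurable fun r : ℝ => ENNReal.ofReal (1024 * α ^ (a + 1)) *
            ENNReal.ofReal (((1 + ρ / 1) ^ 2)⁻¹) * I2 lam t ρ r := (hI2 ρ).const_mul _
        rw [lintegral_add_left h1, lintegral_add_left h2]
    _ = (∫⁻ ρ in Ioi (0 : ℝ), ∫⁻ r in Ioi (0 : ℝ), ENNReal.ofReal (α ^ a) *
          ENNReal.ofReal (((1 + r / α) ^ 2)⁻¹) * I1 lam t ρ r) +
          ((∫⁻ ρ in Ioi (0 : ℝ), ∫⁻ r in Ioi (0 : ℝ), ENNReal.ofReal (1024 * α ^ (a + 1)) *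
          ENNReal.ofReal (((1 + ρ / 1) ^ 2)⁻¹) * I2 lam t ρ r) +
          ∫⁻ ρ in Ioi (0 : ℝ), ∫⁻ r in Ioi (0 : ℝ), J3 c ρ r) := by
        rw [lintegral_add_left hm1, lintegral_add_left hm2]
    _ ≤ ENNReal.ofReal (C ^ 2) * ENNReal.ofReal (lam⁻¹ * α ^ (a + 1)) +
        (ENNReal.ofReal (1024 * C ^ 2) * ENNReal.ofReal (lam⁻¹ * α ^ (a + 1)) +
        ENNReal.ofReal (2 ^ (a + 3)) * ENNReal.ofReal (lam⁻¹ * α ^ (a + 1))) :=
        add_le_add hA1 (add_le_add hA2 hA3)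
    _ = _ := by
        rw [← add_mul, ← add_mul, ← ENNReal.ofReal_add (by positivity) (by positivity),
          ← ENNReal.ofReal_add (by positivity) (by positivity), add_assoc]

end QD

/-- module QD -/
theorem pf_qd (hCSL : Pool.Agent.H79.BR.T_CSL) : T_QD := by
  obtain ⟨C, hC0, hC⟩ := hCSL
  have hHC : QD.HC C := hC
  refine ⟨?_, ?_⟩
  · intro a ha
    obtain ⟨b, rfl⟩ : ∃ b, a = b + 1 := ⟨a - 1, by omega⟩
    refine ⟨b + 3, Real.toNNReal (C ^ 2 + 1024 * C ^ 2 + 2 ^ (b + 3)), ?_⟩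
    intro lam Lam t hl hL hL4 ht
    exact QD.part1 hC0 hHC hl hL hL4 ht
  · refine ⟨Real.toNNReal (2 * C), ?_⟩
    intro lam t δ₁ δ₂ r₀ ρ₀ hl h₁ h₂
    exact QD.part2 hC0 hHC hl h₁ h₂

end Pool.Agent.H60.BR
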