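import Pool.Agent.H83.AR.Targets2

/-!
Module SUI: sup bounds and energy near the axis for bounded integrable functions.
-/

set_option autoImplicit false

namespace Pool.Agent.H60.BR

open MeasureTheory Set FourierTransform Filter
open Pool.Agent.H83.LS Pool.Agent.H93.AR Pool.Agent.H83.AR
open Pool.Agent.H14.LS (mj m0 mj_meas mj_meas' mj_int m0_meas' m0_int mj_le m0_le bcd_int
  fourier_meas' MM_meas)
open scoped ENNReal NNReal Topology

namespace SUI

/-- truncation -/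
noncomputable def fk {d : ℕ} (f : EE d → ℂ) (k : ℕ) : EE d → ℂ :=
  (Metric.closedBall (0 : EE d) (k : ℝ)).indicator f

theorem fk_bcd {d : ℕ} {f : EE d → ℂ} {A : ℝ} (hf : BI A f) (k : ℕ) : BCd A (fk f k) := by
  obtain ⟨hm, hi, hA⟩ := hf
  have hA0 : 0 ≤ A := (norm_nonneg _).trans (hA 0)
  refine ⟨hm.indicator Metric.isClosed_closedBall.measurableSet, fun x => ?_, (k : ℝ),
    fun x hx => ?_⟩
  · unfold fk
    by_cases h : x ∈ Metric.closedBall (0 : EE d) (k : ℝ)
    · rw [indicator_of_mem h]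
      exact hA x
    · rw [indicator_of_notMem h, norm_zero]
      exact hA0
  · unfold fk
    apply indicator_of_notMem
    rw [mem_closedBall_zero_iff]
    exact not_le.2 hx

theorem fk_ne {d : ℕ} {f : EE d → ℂ} {k : ℕ} {x : EE d} (h : fk f k x ≠ 0) : f x ≠ 0 := by
  unfold fk at h
  intro h0
  apply h
  by_cases hx : x ∈ Metric.closedBall (0 : EE d) (k : ℝ)
  · rw [indicator_of_mem hx, h0]
  · rw [indicator_of_notMem hx]

theorem fk_l2 {d : ℕ} (f : EE d → ℂ) (k : ℕ) : ∫⁻ x, ‖fk f k x‖ₑ ^ 2 ≤ ∫⁻ x, ‖f x‖ₑ ^ 2 := by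
  refine lintegral_mono fun x => ?_
  unfold fk
  by_cases hx : x ∈ Metric.closedBall (0 : EE d) (k : ℝ)
  · rw [indicator_of_mem hx]
  · rw [indicator_of_notMem hx]
    simp

end SUI

open SUI in
/-- module SUI -/
theorem pf_sui (hSU : T_SU) (hSV : T_SV) (hTE : T_TE) (hLI : T_LI) (hLX : T_LOWX) (hPLE : T_PLE) :
    T_SUI := by
  intro n hn
  obtain ⟨C₁, hC₁, h1⟩ := hSU n hn
  obtain ⟨C₂, hC₂, h2⟩ := hSV n hn
  obtain ⟨C₃, h3⟩ := hTE n hn
  obtain ⟨C₄, h4⟩ := hLX n hn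
  set C : ℝ := max (max C₁ C₂) (max (C₃ : ℝ) (C₄ : ℝ)) with hC
  have hc1 : C₁ ≤ C := (le_max_left _ _).trans (le_max_left _ _)
  have hc2 : C₂ ≤ C := (le_max_right _ _).trans (le_max_left _ _)
  have hc3 : (C₃ : ℝ) ≤ C := (le_max_left _ _).trans (le_max_right _ _)
  have hc4 : (C₄ : ℝ) ≤ C := (le_max_right _ _).trans (le_max_right _ _)
  have hn1 : 1 ≤ n := by omega
  have lim : ∀ {lam Lam t A : ℝ} {f : EE (n + 1) → ℂ}, 0 < lam → BI A f → ∀ x,
      Tendsto (fun k : ℕ => MM (mj n lam Lam t) (fk f k) x) atTop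
        (𝓝 (MM (mj n lam Lam t) f x)) := by
    intro lam Lam t A f hl hf x
    exact (hLI n 1 A (mj n lam Lam t) f hn1 le_rfl hf (mj_meas' n lam Lam t)
      (mj_int n hl Lam t) x).2
  refine ⟨C, hC₁.trans hc1, ?_, ?_, ?_, ?_⟩
  · intro lam Lam t A f hl hL hL4 ht hf x
    have hA0 : 0 ≤ A := (norm_nonneg _).trans (hf.2.2 0)
    have hl0 : 0 < lam := by linarith
    refine le_of_tendsto (lim hl0 hf x).norm (Eventually.of_forall fun k => ?_)
    refine (h1 lam Lam t A (fk f k) hl hL hL4 ht (fk_bcd hf k) x).trans ?_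
    gcongr
  · intro lam Lam t A δ f hl hL hL4 ht hf hlL hδ hδ2 hs x
    have hA0 : 0 ≤ A := (norm_nonneg _).trans (hf.2.2 0)
    have hl0 : 0 < lam := by linarith
    have hδ0 : 0 ≤ δ := le_trans (by positivity) hδ
    refine le_of_tendsto (lim hl0 hf x).norm (Eventually.of_forall fun k => ?_)
    refine (h2 lam Lam t A δ (fk f k) hl hL hL4 ht (fk_bcd hf k) hlL hδ hδ2
      (fun x hx => hs x (fk_ne hx)) x).trans ?_
    gcongr
  · intro lam Lam A δ f hl hL hL4 hf hδ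
    have hl0 : 0 < lam := by linarith
    have hS : MeasurableSet {x : EE (n + 1) | hor x ≤ δ} :=
      measurableSet_le Pool.Agent.H14.LS.hor_cont.measurable measurable_const
    have hmk : ∀ k, Measurable fun q : ℝ × EE (n + 1) =>
        ‖MM (mj n lam Lam q.1) (fk f k) q.2‖ₑ ^ 2 := fun k =>
      (MM_meas (mj_meas n lam Lam) (fourier_meas' (bcd_int (fk_bcd hf k)))).enorm.pow_const 2
    have hmkt : ∀ k t, Measurable fun x : EE (n + 1) =>
        ‖MM (mj n lam Lam t) (fk f k) x‖ₑ ^ 2 := fun k t =>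
      (hmk k).comp (g := fun q : ℝ × EE (n + 1) => ‖MM (mj n lam Lam q.1) (fk f k) q.2‖ₑ ^ 2)
        (f := fun x => (t, x)) (by fun_prop)
    have hmI : ∀ k, Measurable fun t : ℝ => ∫⁻ x in {x : EE (n + 1) | hor x ≤ δ},
        ‖MM (mj n lam Lam t) (fk f k) x‖ₑ ^ 2 := fun k =>
      Measurable.lintegral_prod_right' (ν := volume.restrict {x : EE (n + 1) | hor x ≤ δ}) (hmk k)
    have hlt : ∀ t x, Tendsto (fun k : ℕ => ‖MM (mj n lam Lam t) (fk f k) x‖ₑ ^ 2) atTop
        (𝓝 (‖MM (mj n lam Lam t) f x‖ₑ ^ 2)) := by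
      intro t x
      exact ((ENNReal.continuous_pow 2).tendsto _).comp (lim (t := t) (Lam := Lam) hl0 hf x).enorm
    have hin : ∀ t : ℝ, ∫⁻ x in {x : EE (n + 1) | hor x ≤ δ}, ‖MM (mj n lam Lam t) f x‖ₑ ^ 2 ≤
        liminf (fun k : ℕ => ∫⁻ x in {x : EE (n + 1) | hor x ≤ δ},
          ‖MM (mj n lam Lam t) (fk f k) x‖ₑ ^ 2) atTop := by
      intro t
      refine le_trans (le_of_eq ?_) (lintegral_liminf_le (hmkt · t))
      refine lintegral_congr fun x => ?_
      exact (hlt t x).liminf_eq.symm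
    refine (lintegral_mono hin).trans ((lintegral_liminf_le hmI).trans ?_)
    refine liminf_le_of_le (by isBoundedDefault) ?_
    intro b hb
    obtain ⟨k, hk⟩ := hb.exists
    refine hk.trans ((h3 lam Lam A δ (fk f k) hl hL hL4 (fk_bcd hf k) hδ).trans ?_)
    have h5 : (C₃ : ℝ≥0∞) ≤ ENNReal.ofReal C := by
      rw [← ENNReal.ofReal_coe_nnreal]
      exact ENNReal.ofReal_le_ofReal hc3
    have h6 := fk_l2 f k
    gcongr
  · intro lam t A f hl ht hf x
    obtain ⟨hfm, hfi, hfA⟩ := hf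
    have hA0 : 0 ≤ A := (norm_nonneg _).trans (hfA 0)
    have hl0 : 0 < lam := by linarith
    obtain ⟨h5, -⟩ := hPLE (n + 1) (m0 n lam t) f (m0_meas' n lam t)
      (fun ξ => le_trans (m0_le n lam t ξ) (Pool.Agent.H14.LS.mT_norm lam t ξ))
      (m0_int n hl0 t) hfi ⟨A, hfA⟩ hfm
    have h6 : ‖MM (m0 n lam t) f x‖ₑ ≤ ENNReal.ofReal (C * A) := by
      rw [h5]
      refine le_trans (enorm_integral_le_lintegral_enorm _) ?_
      calc ∫⁻ y, ‖MK (m0 n lam t) (x - y) * f y‖ₑ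
          ≤ ∫⁻ y, ‖MK (m0 n lam t) (x - y)‖ₑ * ENNReal.ofReal A := by
            refine lintegral_mono fun y => ?_
            rw [enorm_mul]
            gcongr
            rw [← ofReal_norm]
            exact ENNReal.ofReal_le_ofReal (hfA y)
        _ = (∫⁻ y, ‖MK (m0 n lam t) y‖ₑ) * ENNReal.ofReal A := by
            rw [lintegral_mul_const' _ _ ENNReal.ofReal_ne_top,
              lintegral_sub_left_eq_self (fun y => ‖MK (m0 n lam t) y‖ₑ) x]
        _ ≤ C₄ * ENNReal.ofReal A := by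
            gcongr
            exact h4 lam t hl ht
        _ ≤ _ := by
            rw [ENNReal.ofReal_mul (hC₁.trans hc1), ← ENNReal.ofReal_coe_nnreal]
            gcongr
    rw [← ofReal_norm] at h6
    exact (ENNReal.ofReal_le_ofReal_iff (mul_nonneg (hC₁.trans hc1) hA0)).1 h6

end Pool.Agent.H60.BR
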