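import Pool.Agent.H84.B2.Targets
import Pool.Agent.H79.BR.CTE
import Pool.Agent.H19.LS.PLE

/-!
Module TE2: energy near the subspace `x'' = 0`.
-/

set_option autoImplicit false

namespace Pool.Agent.H60.BR

open MeasureTheory Set FourierTransform
open Pool.Agent.H84.B2 Pool.Agent.H84.BR Pool.Agent.H83.AR Pool.Agent.H93.AR Pool.Agent.H83.LS
  Pool.Agent.H54.LS
open Pool.Agent.H79.BR (T_CTT T_CGA T_CSC gw_int)
open Pool.Agent.H19.LS (plancherelE memLp_two_of fourier_e fourier_cont)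
open scoped ENNReal NNReal

namespace TE2

/-- the Gaussian weight -/
noncomputable def gw (n : ℕ) (δ : ℝ) (q : ℝ × EE n) : ℝ :=
  Real.exp (-(Real.pi * q.1 ^ 2)) * Real.exp (-(Real.pi * (‖q.2‖ ^ 2 / δ ^ 2)))

theorem gw_meas (n : ℕ) (δ : ℝ) : Measurable (gw n δ) := by
  unfold gw
  fun_prop

theorem gw_ge (n : ℕ) {δ t : ℝ} {y : EE n} (hδ : 0 < δ) (ht : t ∈ Icc (1 : ℝ) 2) (hy : ‖y‖ ≤ δ) :
    1 ≤ Real.exp (5 * Real.pi) * gw n δ (t, y) := by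
  unfold gw
  rw [← Real.exp_add, ← Real.exp_add]
  apply Real.one_le_exp
  have hp := Real.pi_pos
  have h1 : t ^ 2 ≤ 4 := by nlinarith [ht.1, ht.2]
  have h2 : ‖y‖ ^ 2 / δ ^ 2 ≤ 1 := by
    rw [div_le_one (by positivity)]
    exact pow_le_pow_left₀ (norm_nonneg _) hy 2
  have h3 : Real.pi * t ^ 2 ≤ Real.pi * 4 := by gcongr
  have h4 : Real.pi * (‖y‖ ^ 2 / δ ^ 2) ≤ Real.pi * 1 := by gcongr
  simp only
  linarith

/-- weighted energy for a general amplitude -/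
theorem cteG (hCTT : T_CTT) (hCGA : T_CGA) (hCSC : T_CSC) {n : ℕ} (hn : 2 ≤ n) :
    ∃ C : ℝ, 0 ≤ C ∧ ∀ (lam Lam δ ζ A : ℝ) (b : EE n → ℂ), 0 < lam → 0 < Lam → 0 < δ →
    Measurable b → (∀ η, ‖b η‖ ≤ A) →
    (∀ η, b η ≠ 0 → Lam / 2 ≤ ‖η‖ ∧ ‖η‖ ≤ 2 * Lam ∧ ‖η‖ ^ 2 + ζ ^ 2 ≤ 4 * lam ^ 2) →
    ∫⁻ q : ℝ × EE n, ENNReal.ofReal (gw n δ q) *
      ‖∫ η : EE n, e (inner ℝ q.2 η + q.1 * Real.sqrt (‖η‖ ^ 2 + ζ ^ 2)) * b η‖ₑ ^ 2 ≤
    ENNReal.ofReal (C * (δ * lam / Lam)) * ∫⁻ η, ‖b η‖ₑ ^ 2 := by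
  obtain ⟨C, hC0, hC⟩ := hCSC n hn
  refine ⟨C, hC0, ?_⟩
  intro lam Lam δ ζ A b hl hL hδ hbm hA hbs
  have hA0 : 0 ≤ A := (norm_nonneg _).trans (hA 0)
  obtain ⟨φ, hφ⟩ : ∃ φ : (ℝ × EE n) × EE n → ℝ, φ = fun p =>
    inner ℝ p.1.2 p.2 + p.1.1 * Real.sqrt (‖p.2‖ ^ 2 + ζ ^ 2) := ⟨_, rfl⟩
  obtain ⟨W, hW⟩ : ∃ W : EE n → EE n → ℝ, W = fun η η' =>
    Real.exp (-(Real.pi *
        (Real.sqrt (‖η‖ ^ 2 + ζ ^ 2) - Real.sqrt (‖η'‖ ^ 2 + ζ ^ 2)) ^ 2)) *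
      (δ ^ n * Real.exp (-(Real.pi * (δ ^ 2 * ‖η - η'‖ ^ 2)))) := ⟨_, rfl⟩
  have hbi : Integrable b := by
    have h1 : IntegrableOn (fun _ : EE n => A) (Metric.closedBall (0 : EE n) (2 * Lam)) :=
      integrableOn_const (measure_closedBall_lt_top.ne)
    rw [← integrable_indicator_iff Metric.isClosed_closedBall.measurableSet] at h1
    refine h1.mono' hbm.aestronglyMeasurable (ae_of_all _ fun η => ?_)
    by_cases h : b η = 0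
    · rw [h, norm_zero]
      exact indicator_nonneg (fun _ _ => hA0) _
    · rw [indicator_of_mem (by
        rw [mem_closedBall_zero_iff]; exact (hbs η h).2.1)]
      exact hA _
  have hφm : Measurable φ := by
    rw [hφ]
    fun_prop
  have hω0 : ∀ q, 0 ≤ gw n δ q := by intro q; unfold gw; positivity
  have hωi : Integrable (gw n δ) := gw_int n hδ
  have hWm : Measurable (fun p : EE n × EE n => W p.1 p.2) := by rw [hW]; fun_prop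
  have hWs : ∀ h h', W h h' = W h' h := by
    intro η η'
    rw [hW]
    simp only
    rw [norm_sub_rev η η', ← neg_sub (Real.sqrt (‖η'‖ ^ 2 + ζ ^ 2)), neg_sq]
  have hWb : ∀ h h', ‖∫ q, ((gw n δ q : ℝ) : ℂ) * e (φ (q, h) - φ (q, h'))‖ ≤ W h h' := by
    intro η η'
    have h1 := hCGA n δ (Real.sqrt (‖η‖ ^ 2 + ζ ^ 2) - Real.sqrt (‖η'‖ ^ 2 + ζ ^ 2)) (η - η') hδ
    have h2 : ∀ q : ℝ × EE n, φ (q, η) - φ (q, η') =
        q.1 * (Real.sqrt (‖η‖ ^ 2 + ζ ^ 2) - Real.sqrt (‖η'‖ ^ 2 + ζ ^ 2)) +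
          inner ℝ q.2 (η - η') := by
      intro q
      rw [hφ]
      simp only
      rw [inner_sub_right]
      ring
    unfold gw
    simp_rw [h2]
    rw [h1, Complex.norm_real, hW, Real.norm_of_nonneg (by positivity)]
  have hS : ∀ h, b h ≠ 0 → ∫⁻ h' in {h' | b h' ≠ 0}, ENNReal.ofReal (W h h') ≤
      ENNReal.ofReal (C * (δ * lam / Lam)) := by
    intro η hη
    obtain ⟨h1, _, h3⟩ := hbs η hη
    refine le_trans ?_ (hC lam Lam δ ζ η hl hL hδ h1 h3)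
    rw [hW]
    apply lintegral_mono_set
    intro η' hη'
    exact hbs η' hη'
  have key := hCTT (ℝ × EE n) (EE n) volume volume (gw n δ) φ b W _ hωi (gw_meas n δ) hω0 hφm hbm
    hbi hWm hWs hWb hS
  refine le_trans (le_of_eq ?_) key
  rw [hφ]

end TE2

open TE2 in
/-- module TE2 -/
theorem pf_te2 (hCTT : Pool.Agent.H79.BR.T_CTT) (hCGA : Pool.Agent.H79.BR.T_CGA)
    (hCSC : Pool.Agent.H79.BR.T_CSC) (hPL1 : T_PL1) (hJM : T_JM) : T_TE2 := by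
  intro a b ha hb
  obtain ⟨C, hC0, hC⟩ := cteG hCTT hCGA hCSC hb
  refine ⟨Real.toNNReal (Real.exp (5 * Real.pi) * C), ?_⟩
  intro lam Lam δ A m f hl hL hL4 hδ hm hm1 hms hf
  obtain ⟨hfm, hfi, hfA⟩ := hf
  obtain ⟨hjp, hjj, hji, hjn, hjc, hp1c, hp2c, -, hmp, -⟩ := hJM a b
  have hl0 : 0 < lam := by linarith
  have hA0 : 0 ≤ A := (norm_nonneg _).trans (hfA 0)
  have hfb : ∀ ξ, ‖𝓕 f ξ‖ ≤ ∫ y, ‖f y‖ := by
    intro ξ
    rw [fourier_e]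
    refine (norm_integral_le_integral_norm _).trans (le_of_eq ?_)
    congr 1
    ext y
    rw [norm_mul, norm_e, one_mul]
  have hfc : Continuous (𝓕 f) := fourier_cont f hfi
  obtain ⟨F, hF⟩ : ∃ F : EE (a + b) → ℂ, F = fun ξ => m ξ * 𝓕 f ξ := ⟨_, rfl⟩
  have hFm : Measurable F := by
    rw [hF]
    exact hm.mul hfc.measurable
  have hFB : ∀ ξ, ‖F ξ‖ ≤ ∫ y, ‖f y‖ := by
    intro ξ
    rw [hF]
    simp only
    rw [norm_mul]
    calc _ ≤ 1 * ∫ y, ‖f y‖ := mul_le_mul (hm1 ξ) (hfb ξ) (norm_nonneg _) zero_le_one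
      _ = _ := one_mul _
  have hFs : ∀ ξ, F ξ ≠ 0 → lam / 2 ≤ ‖ξ‖ ∧ ‖ξ‖ ≤ 2 * lam ∧ Lam / 2 ≤ ‖p2 a b ξ‖ ∧
      ‖p2 a b ξ‖ ≤ 2 * Lam := by
    intro ξ hne
    rw [hF] at hne
    exact hms ξ (left_ne_zero_of_mul hne)
  -- the evolution
  have hmm : Measurable fun q : ℝ × EE (a + b) => e (q.1 * ‖q.2‖) * m q.2 :=
    (measurable_e.comp (by fun_prop)).mul (hm.comp measurable_snd)
  have hUm : Measurable fun q : ℝ × EE (a + b) =>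
      ‖MM (fun ξ => e (q.1 * ‖ξ‖) * m ξ) f q.2‖ₑ ^ 2 :=
    (Pool.Agent.H14.LS.MM_meas (m := fun t ξ => e (t * ‖ξ‖) * m ξ) hmm
      hfc.measurable).enorm.pow_const 2
  have hUt : ∀ t : ℝ, Measurable fun x : EE (a + b) =>
      ‖MM (fun ξ => e (t * ‖ξ‖) * m ξ) f x‖ₑ ^ 2 := fun t =>
    hUm.comp (g := fun q : ℝ × EE (a + b) => ‖MM (fun ξ => e (q.1 * ‖ξ‖) * m ξ) f q.2‖ₑ ^ 2)
      (f := fun x => (t, x)) (by fun_prop)
  have hU : ∀ (t : ℝ) (x : EE (a + b)), MM (fun ξ => e (t * ‖ξ‖) * m ξ) f x =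
      ∫ ξ : EE (a + b), e (inner ℝ x ξ) * (e (t * ‖ξ‖) * F ξ) := by
    intro t x
    unfold MM
    rw [hF]
    refine integral_congr_ae (ae_of_all _ fun ξ => ?_)
    simp only
    ring
  -- the inner integral
  obtain ⟨V, hV⟩ : ∃ V : (ℝ × EE b) → EE a → ℂ, V = fun q ζ =>
    ∫ η : EE b, e (inner ℝ q.2 η + q.1 * Real.sqrt (‖η‖ ^ 2 + ‖ζ‖ ^ 2)) * F (jm a b ζ η) := ⟨_, rfl⟩
  have hVm : Measurable fun p : (ℝ × EE b) × EE a => V p.1 p.2 := by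
    rw [hV]
    have h1 : Measurable fun q : ((ℝ × EE b) × EE a) × EE b => jm a b q.1.2 q.2 := by
      have h2 : Measurable fun q : ((ℝ × EE b) × EE a) × EE b => (q.1.2, q.2) := by fun_prop
      exact hjc.measurable.comp h2
    have h3 : Measurable fun q : ((ℝ × EE b) × EE a) × EE b =>
        e (inner ℝ q.1.1.2 q.2 + q.1.1.1 * Real.sqrt (‖q.2‖ ^ 2 + ‖q.1.2‖ ^ 2)) *
          F (jm a b q.1.2 q.2) :=
      (measurable_e.comp (by fun_prop)).mul (hFm.comp h1)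
    exact (h3.stronglyMeasurable.integral_prod_right' (ν := volume)).measurable
  have hnj : ∀ (ζ : EE a) (η : EE b), ‖jm a b ζ η‖ = Real.sqrt (‖η‖ ^ 2 + ‖ζ‖ ^ 2) := by
    intro ζ η
    have h1 := hjn (jm a b ζ η)
    rw [(hjp ζ η).1, (hjp ζ η).2, add_comm (‖ζ‖ ^ 2)] at h1
    rw [← h1, Real.sqrt_sq (norm_nonneg _)]
  have hPl : ∀ (t : ℝ) (y : EE b), ∫⁻ z : EE a, ‖MM (fun ξ => e (t * ‖ξ‖) * m ξ) f (jm a b z y)‖ₑ ^ 2 =
      ∫⁻ ζ : EE a, ‖V (t, y) ζ‖ₑ ^ 2 := by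
    intro t y
    have h1 := hPL1 a b (∫ y, ‖f y‖) (2 * lam) (fun ξ => e (t * ‖ξ‖) * F ξ) y
      ((measurable_e.comp (by fun_prop)).mul hFm)
      (fun ξ => by rw [norm_mul, norm_e, one_mul]; exact hFB ξ)
      (fun ξ hξ => by
        have : F ξ = 0 := by
          by_contra hne
          have := (hFs ξ hne).2.1
          linarith
        rw [this, mul_zero])
    simp_rw [hU]
    rw [h1]
    refine lintegral_congr fun ζ => ?_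
    rw [hV]
    simp only
    congr 2
    refine integral_congr_ae (ae_of_all _ fun η => ?_)
    simp only
    rw [e_add, hnj, mul_assoc]
  -- Plancherel
  have hFf : ∫⁻ ξ, ‖F ξ‖ₑ ^ 2 ≤ ∫⁻ x, ‖f x‖ₑ ^ 2 := by
    have hf2 : ∫⁻ y, ‖f y‖ₑ ^ 2 ≠ ⊤ := by
      have h1 : ∫⁻ y, ‖f y‖ₑ ^ 2 ≤ ∫⁻ y, ENNReal.ofReal A * ‖f y‖ₑ := by
        refine lintegral_mono fun y => ?_
        rw [pow_two]
        have : ‖f y‖ₑ ≤ ENNReal.ofReal A := by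
          rw [← ofReal_norm]
          exact ENNReal.ofReal_le_ofReal (hfA y)
        gcongr
      rw [lintegral_const_mul' _ _ ENNReal.ofReal_ne_top] at h1
      exact (h1.trans_lt (ENNReal.mul_lt_top ENNReal.ofReal_lt_top hfi.2)).ne
    rw [← plancherelE f hfi (memLp_two_of f hfm.aestronglyMeasurable hf2)]
    refine lintegral_mono fun ξ => ?_
    rw [hF]
    simp only
    rw [enorm_mul, mul_pow]
    have h3 : ‖m ξ‖ₑ ≤ 1 := by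
      rw [← ofReal_norm, ← ENNReal.ofReal_one]
      exact ENNReal.ofReal_le_ofReal (hm1 ξ)
    calc ‖m ξ‖ₑ ^ 2 * ‖𝓕 f ξ‖ₑ ^ 2 ≤ 1 ^ 2 * ‖𝓕 f ξ‖ₑ ^ 2 := by gcongr
      _ = _ := by rw [one_pow, one_mul]
  -- weights
  have hgm := gw_meas b δ
  have hw : Measurable fun q : ℝ × EE b => ENNReal.ofReal (gw b δ q) := hgm.ennreal_ofReal
  have hpm : Measurable fun x : EE (a + b) => p2 a b x := hp2c.measurable
  have hS : MeasurableSet {x : EE (a + b) | ‖p2 a b x‖ ≤ δ} :=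
    measurableSet_le hpm.norm measurable_const
  have s1 : ∫⁻ t in Icc (1 : ℝ) 2, ∫⁻ x in {x : EE (a + b) | ‖p2 a b x‖ ≤ δ},
      ‖MM (fun ξ => e (t * ‖ξ‖) * m ξ) f x‖ₑ ^ 2 ≤
      ENNReal.ofReal (Real.exp (5 * Real.pi)) * ∫⁻ t : ℝ, ∫⁻ x : EE (a + b),
        ENNReal.ofReal (gw b δ (t, p2 a b x)) * ‖MM (fun ξ => e (t * ‖ξ‖) * m ξ) f x‖ₑ ^ 2 := by
    rw [← lintegral_const_mul' _ _ ENNReal.ofReal_ne_top]
    refine (setLIntegral_mono' measurableSet_Icc fun t ht => ?_).trans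
      (setLIntegral_le_lintegral _ _)
    rw [← lintegral_const_mul' _ _ ENNReal.ofReal_ne_top]
    refine (setLIntegral_mono' hS fun x hx => ?_).trans (setLIntegral_le_lintegral _ _)
    rw [← mul_assoc, ← ENNReal.ofReal_mul (by positivity)]
    refine le_mul_of_one_le_left zero_le ?_
    rw [← ENNReal.ofReal_one]
    exact ENNReal.ofReal_le_ofReal (gw_ge b hδ ht hx)
  have s2 : ∀ t : ℝ, ∫⁻ x : EE (a + b),
      ENNReal.ofReal (gw b δ (t, p2 a b x)) * ‖MM (fun ξ => e (t * ‖ξ‖) * m ξ) f x‖ₑ ^ 2 =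
      ∫⁻ y : EE b, ENNReal.ofReal (gw b δ (t, y)) * ∫⁻ ζ : EE a, ‖V (t, y) ζ‖ₑ ^ 2 := by
    intro t
    have h1 : Measurable fun x : EE (a + b) => ENNReal.ofReal (gw b δ (t, p2 a b x)) *
        ‖MM (fun ξ => e (t * ‖ξ‖) * m ξ) f x‖ₑ ^ 2 := by
      refine Measurable.mul ?_ (hUt t)
      have h2 : Measurable fun x : EE (a + b) => (t, p2 a b x) := by fun_prop
      exact hw.comp h2
    have h3 : Measurable fun q : EE a × EE b =>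
        ENNReal.ofReal (gw b δ (t, p2 a b (jm a b q.1 q.2))) *
        ‖MM (fun ξ => e (t * ‖ξ‖) * m ξ) f (jm a b q.1 q.2)‖ₑ ^ 2 := h1.comp hjc.measurable
    rw [← hmp.lintegral_comp h1, lintegral_prod_symm' _ h3]
    refine lintegral_congr fun y => ?_
    simp only
    rw [← hPl t y, ← lintegral_const_mul' _ _ ENNReal.ofReal_ne_top]
    refine lintegral_congr fun z => ?_
    rw [(hjp z y).2]
  have s3 : ∫⁻ t : ℝ, ∫⁻ y : EE b, ENNReal.ofReal (gw b δ (t, y)) *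
      ∫⁻ ζ : EE a, ‖V (t, y) ζ‖ₑ ^ 2 =
      ∫⁻ ζ : EE a, ∫⁻ q : ℝ × EE b, ENNReal.ofReal (gw b δ q) * ‖V q ζ‖ₑ ^ 2 := by
    have hm1 : Measurable fun p : (ℝ × EE b) × EE a =>
        ENNReal.ofReal (gw b δ p.1) * ‖V p.1 p.2‖ₑ ^ 2 :=
      (hw.comp measurable_fst).mul (hVm.enorm.pow_const 2)
    have hm2 : Measurable fun q : ℝ × EE b => ∫⁻ ζ : EE a,
        ENNReal.ofReal (gw b δ q) * ‖V q ζ‖ₑ ^ 2 := hm1.lintegral_prod_right'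
    have h1 : ∀ q : ℝ × EE b, ENNReal.ofReal (gw b δ q) * ∫⁻ ζ : EE a, ‖V q ζ‖ₑ ^ 2 =
        ∫⁻ ζ : EE a, ENNReal.ofReal (gw b δ q) * ‖V q ζ‖ₑ ^ 2 := fun q =>
      (lintegral_const_mul' _ _ ENNReal.ofReal_ne_top).symm
    simp_rw [h1]
    have h2 : ∫⁻ t : ℝ, ∫⁻ y : EE b, ∫⁻ ζ : EE a,
        ENNReal.ofReal (gw b δ (t, y)) * ‖V (t, y) ζ‖ₑ ^ 2 =
        ∫⁻ q : ℝ × EE b, ∫⁻ ζ : EE a, ENNReal.ofReal (gw b δ q) * ‖V q ζ‖ₑ ^ 2 := by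
      rw [Measure.volume_eq_prod, lintegral_prod _ hm2.aemeasurable]
    rw [h2]
    exact lintegral_lintegral_swap hm1.aemeasurable
  have s4 : ∀ ζ : EE a, ∫⁻ q : ℝ × EE b, ENNReal.ofReal (gw b δ q) * ‖V q ζ‖ₑ ^ 2 ≤
      ENNReal.ofReal (C * (δ * lam / Lam)) * ∫⁻ η : EE b, ‖F (jm a b ζ η)‖ₑ ^ 2 := by
    intro ζ
    have h2 : Measurable fun η : EE b => F (jm a b ζ η) := by
      have h3 : Measurable fun η : EE b => (ζ, η) := by fun_prop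
      exact hFm.comp (hjc.measurable.comp h3)
    have h1 := hC lam Lam δ ‖ζ‖ (∫ y, ‖f y‖) (fun η => F (jm a b ζ η)) hl0 hL hδ h2
      (fun η => hFB _) (fun η hη => by
        obtain ⟨-, h4, h5, h6⟩ := hFs _ hη
        rw [(hjp ζ η).2] at h5 h6
        refine ⟨h5, h6, ?_⟩
        have h7 := hjn (jm a b ζ η)
        rw [(hjp ζ η).1, (hjp ζ η).2] at h7
        nlinarith [norm_nonneg (jm a b ζ η)])
    rw [hV]
    exact h1
  have s5 : ∫⁻ ζ : EE a, ∫⁻ η : EE b, ‖F (jm a b ζ η)‖ₑ ^ 2 = ∫⁻ ξ, ‖F ξ‖ₑ ^ 2 := by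
    have h1 : Measurable fun ξ => ‖F ξ‖ₑ ^ 2 := hFm.enorm.pow_const 2
    have h2 : Measurable fun q : EE a × EE b => ‖F (jm a b q.1 q.2)‖ₑ ^ 2 := h1.comp hjc.measurable
    rw [← hmp.lintegral_comp h1, lintegral_prod _ h2.aemeasurable]
  calc ∫⁻ t in Icc (1 : ℝ) 2, ∫⁻ x in {x : EE (a + b) | ‖p2 a b x‖ ≤ δ},
        ‖MM (fun ξ => e (t * ‖ξ‖) * m ξ) f x‖ₑ ^ 2
      ≤ ENNReal.ofReal (Real.exp (5 * Real.pi)) * ∫⁻ t : ℝ, ∫⁻ x : EE (a + b),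
        ENNReal.ofReal (gw b δ (t, p2 a b x)) * ‖MM (fun ξ => e (t * ‖ξ‖) * m ξ) f x‖ₑ ^ 2 := s1
    _ = ENNReal.ofReal (Real.exp (5 * Real.pi)) *
        ∫⁻ ζ : EE a, ∫⁻ q : ℝ × EE b, ENNReal.ofReal (gw b δ q) * ‖V q ζ‖ₑ ^ 2 := by
        simp_rw [s2]
        rw [s3]
    _ ≤ ENNReal.ofReal (Real.exp (5 * Real.pi)) *
        ∫⁻ ζ : EE a, ENNReal.ofReal (C * (δ * lam / Lam)) * ∫⁻ η : EE b, ‖F (jm a b ζ η)‖ₑ ^ 2 := by
        gcongr with ζ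
        exact s4 ζ
    _ = ENNReal.ofReal (Real.exp (5 * Real.pi)) *
        (ENNReal.ofReal (C * (δ * lam / Lam)) * ∫⁻ ξ, ‖F ξ‖ₑ ^ 2) := by
        rw [lintegral_const_mul' _ _ ENNReal.ofReal_ne_top, s5]
    _ ≤ ENNReal.ofReal (Real.exp (5 * Real.pi)) *
        (ENNReal.ofReal (C * (δ * lam / Lam)) * ∫⁻ x, ‖f x‖ₑ ^ 2) := by gcongr
    _ = ENNReal.ofReal (Real.exp (5 * Real.pi) * C) * ENNReal.ofReal (δ * lam / Lam) *
        ∫⁻ x, ‖f x‖ₑ ^ 2 := by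
        rw [← mul_assoc, ← ENNReal.ofReal_mul (by positivity),
          ← ENNReal.ofReal_mul (by positivity)]
        congr 2
        ring

end Pool.Agent.H60.BR
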