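import Pool.Agent.H83.AR.Targets2
import Pool.Agent.H19.LS.PLE
import Pool.Agent.H19.LS.PC2

/-!
Module TZ: energy on slabs in the last variable.
-/

set_option autoImplicit false

namespace Pool.Agent.H60.BR

open MeasureTheory Set FourierTransform
open Pool.Agent.H83.LS Pool.Agent.H93.AR Pool.Agent.H54.LS Pool.Agent.H83.AR
open Pool.Agent.H19.LS (plancherelE memLp_two_of fourier_e fourier_cont)
open scoped ENNReal NNReal SchwartzMap

namespace TZ

/-- `√(a² + s²)` -/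
noncomputable def qq (a s : ℝ) : ℝ := Real.sqrt (a ^ 2 + s ^ 2)

theorem qq_pos {a s : ℝ} (hs : 0 < s) : 0 < qq a s := Real.sqrt_pos.2 (by positivity)

theorem qq_sq (a s : ℝ) : qq a s ^ 2 = a ^ 2 + s ^ 2 := Real.sq_sqrt (by positivity)

theorem qq_deriv {a s : ℝ} (hs : 0 < s) : HasDerivAt (qq a) (s / qq a s) s := by
  have h1 : HasDerivAt (fun s : ℝ => a ^ 2 + s ^ 2) (2 * s) s := by
    simpa using (hasDerivAt_pow 2 s).const_add (a ^ 2)
  have h2 := h1.sqrt (by positivity)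
  have h3 : 2 * s / (2 * Real.sqrt (a ^ 2 + s ^ 2)) = s / qq a s := by
    unfold qq
    rw [mul_div_mul_left _ _ two_ne_zero]
  rw [h3] at h2
  exact h2

theorem qq_inj (a : ℝ) : InjOn (qq a) (Ioi 0) := by
  intro x hx y hy h
  have h3 : a ^ 2 + x ^ 2 = a ^ 2 + y ^ 2 := by rw [← qq_sq, ← qq_sq, h]
  have h4 : x ^ 2 = y ^ 2 := by linarith
  exact (pow_left_inj₀ (le_of_lt hx) (le_of_lt hy) two_ne_zero).1 h4

theorem qq_image {a : ℝ} (ha : 0 ≤ a) : qq a '' Ioi 0 = Ioi a := by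
  ext y
  constructor
  · rintro ⟨x, hx, rfl⟩
    have hx1 : (0 : ℝ) < x := hx
    change a < qq a x
    have : a ^ 2 < qq a x ^ 2 := by rw [qq_sq]; nlinarith
    exact lt_of_pow_lt_pow_left₀ 2 (qq_pos hx1).le this
  · intro hy
    have hy' : a < y := hy
    have h0 : 0 < y := ha.trans_lt hy'
    have h1 : a ^ 2 < y ^ 2 := by nlinarith
    refine ⟨Real.sqrt (y ^ 2 - a ^ 2), Real.sqrt_pos.2 (by linarith), ?_⟩
    unfold qq
    rw [Real.sq_sqrt (by linarith), add_sub_cancel, Real.sqrt_sq h0.le]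

/-- the function after the change of variables -/
noncomputable def kk (a c : ℝ) (b : ℝ → ℂ) (τ : ℝ) : ℂ :=
  (Ioi a).indicator (fun τ => e (c * Real.sqrt (τ ^ 2 - a ^ 2)) * b (Real.sqrt (τ ^ 2 - a ^ 2)) *
    ((τ / Real.sqrt (τ ^ 2 - a ^ 2) : ℝ) : ℂ)) τ

theorem kk_qq {a s : ℝ} (c : ℝ) (b : ℝ → ℂ) (ha : 0 ≤ a) (hs : 0 < s) :
    kk a c b (qq a s) = e (c * s) * b s * ((qq a s / s : ℝ) : ℂ) := by
  have h2 : qq a s ∈ Ioi a := by
    rw [← qq_image ha]
    exact mem_image_of_mem _ hs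
  have h3 : Real.sqrt (qq a s ^ 2 - a ^ 2) = s := by
    rw [qq_sq, add_sub_cancel_left, Real.sqrt_sq hs.le]
  unfold kk
  rw [indicator_of_mem h2, h3]

theorem kk_meas {a c : ℝ} {b : ℝ → ℂ} (hb : Measurable b) : Measurable (kk a c b) := by
  unfold kk
  apply Measurable.indicator _ measurableSet_Ioi
  have h1 : Measurable fun y : ℝ => Real.sqrt (y ^ 2 - a ^ 2) := by fun_prop
  refine ((measurable_e.comp (h1.const_mul c)).mul (hb.comp h1)).mul ?_
  exact Complex.measurable_ofReal.comp (measurable_id.div h1)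

theorem oneD {a κ T B : ℝ} (c : ℝ) (b : ℝ → ℂ) (ha : 0 ≤ a) (hκ : 0 < κ) (hbm : Measurable b)
    (hbB : ∀ s, ‖b s‖ ≤ B) (hb : ∀ s, b s ≠ 0 → 0 < s ∧ κ * qq a s ≤ s ∧ qq a s ≤ T) :
    ∫⁻ t : ℝ, ‖∫ s : ℝ, e (c * s + t * qq a s) * b s‖ₑ ^ 2 ≤
      ENNReal.ofReal (1 / κ) * ∫⁻ s, ‖b s‖ₑ ^ 2 := by
  have hB0 : 0 ≤ B := (norm_nonneg _).trans (hbB 0)
  have key : ∀ y, kk a c b y ≠ 0 → ∃ s, 0 < s ∧ y = qq a s ∧ b s ≠ 0 := by
    intro y hy
    have h1 : y ∈ Ioi a := by
      by_contra hc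
      apply hy
      unfold kk
      rw [indicator_of_notMem hc]
    rw [← qq_image ha] at h1
    obtain ⟨s, hs, rfl⟩ := h1
    refine ⟨s, hs, rfl, fun h0 => hy ?_⟩
    rw [kk_qq c b ha hs, h0]
    ring
  have hkb : ∀ y, ‖kk a c b y‖ ≤ B / κ := by
    intro y
    by_cases hy : kk a c b y = 0
    · rw [hy, norm_zero]
      positivity
    · obtain ⟨s, hs, rfl, hne⟩ := key y hy
      have h3 := qq_pos (a := a) hs
      rw [kk_qq c b ha hs, norm_mul, norm_mul, norm_e, one_mul, Complex.norm_real,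
        Real.norm_of_nonneg (by positivity)]
      have h5 : κ * qq a s ≤ s := (hb s hne).2.1
      have h6 : qq a s / s ≤ 1 / κ := by
        rw [div_le_div_iff₀ hs hκ]
        linarith
      calc ‖b s‖ * (qq a s / s) ≤ B * (1 / κ) :=
            mul_le_mul (hbB s) h6 (by positivity) hB0
        _ = B / κ := by ring
  have hks : ∀ y, y ∉ Icc (-T) T → kk a c b y = 0 := by
    intro y hy
    by_contra hne
    obtain ⟨s, hs, rfl, hn⟩ := key y hne
    apply hy
    have h3 := qq_pos (a := a) hs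
    have h5 := (hb s hn).2.2
    exact ⟨by linarith, h5⟩
  have hkm := kk_meas (a := a) (c := c) hbm
  have hki : Integrable (kk a c b) := by
    have h1 : IntegrableOn (kk a c b) (Icc (-T) T) :=
      Measure.integrableOn_of_bounded (M := B / κ) (by simp) hkm.aestronglyMeasurable
        (Filter.Eventually.of_forall hkb)
    exact (integrableOn_iff_integrable_of_support_subset (fun y hy => by
      by_contra hc
      exact hy (hks y hc))).1 h1
  have hk2 : ∫⁻ y, ‖kk a c b y‖ₑ ^ 2 ≤ ENNReal.ofReal (1 / κ) * ∫⁻ s, ‖b s‖ₑ ^ 2 := by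
    have h1 : ∫⁻ y, ‖kk a c b y‖ₑ ^ 2 = ∫⁻ y in qq a '' Ioi 0, ‖kk a c b y‖ₑ ^ 2 := by
      rw [qq_image ha, ← lintegral_indicator measurableSet_Ioi]
      refine lintegral_congr fun y => ?_
      by_cases hy : y ∈ Ioi a
      · rw [indicator_of_mem hy]
      · rw [indicator_of_notMem hy]
        unfold kk
        rw [indicator_of_notMem hy]
        simp
    rw [h1, lintegral_image_eq_lintegral_abs_deriv_mul measurableSet_Ioi
      (fun s hs => (qq_deriv hs).hasDerivWithinAt) (qq_inj a)]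
    rw [← lintegral_const_mul' _ _ ENNReal.ofReal_ne_top]
    refine (setLIntegral_mono' measurableSet_Ioi fun s hs => ?_).trans
      (setLIntegral_le_lintegral _ _)
    have hs0 : (0 : ℝ) < s := hs
    have h3 := qq_pos (a := a) hs0
    rw [kk_qq c b ha hs0, enorm_mul, enorm_mul, enorm_e, one_mul]
    have h5 : ‖((qq a s / s : ℝ) : ℂ)‖ₑ = ENNReal.ofReal (qq a s / s) := by
      rw [← ofReal_norm, Complex.norm_real, Real.norm_of_nonneg (by positivity)]
    rw [h5, mul_pow, ← ENNReal.ofReal_pow (by positivity), abs_of_pos (by positivity)]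
    by_cases hne : b s = 0
    · simp [hne]
    · have h6 : κ * qq a s ≤ s := (hb s hne).2.1
      have h7 : s / qq a s * (qq a s / s) ^ 2 ≤ 1 / κ := by
        have h8 : s / qq a s * (qq a s / s) ^ 2 = qq a s / s := by
          field_simp
        rw [h8, div_le_div_iff₀ hs0 hκ]
        linarith
      calc ENNReal.ofReal (s / qq a s) * (‖b s‖ₑ ^ 2 * ENNReal.ofReal ((qq a s / s) ^ 2))
          = ENNReal.ofReal (s / qq a s * (qq a s / s) ^ 2) * ‖b s‖ₑ ^ 2 := by
            rw [ENNReal.ofReal_mul (by positivity)]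
            ring
        _ ≤ _ := mul_le_mul_left (ENNReal.ofReal_le_ofReal h7) _
  have hEq : ∀ t : ℝ, ∫ s : ℝ, e (c * s + t * qq a s) * b s = 𝓕 (kk a c b) (-t) := by
    intro t
    have h1 : 𝓕 (kk a c b) (-t) = ∫ y in qq a '' Ioi 0, e (t * y) * kk a c b y := by
      rw [qq_image ha, setIntegral_eq_integral_of_forall_compl_eq_zero]
      · rw [Real.fourier_eq']
        refine integral_congr_ae (ae_of_all _ fun v => ?_)
        simp only
        rw [smul_eq_mul]
        unfold e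
        congr 3
        simp only [RCLike.inner_apply, conj_trivial]
        push_cast
        ring
      · intro y hy
        unfold kk
        rw [indicator_of_notMem hy, mul_zero]
    rw [h1, integral_image_eq_integral_abs_deriv_smul measurableSet_Ioi
      (fun s hs => (qq_deriv hs).hasDerivWithinAt) (qq_inj a)]
    have h2 : ∫ s : ℝ, e (c * s + t * qq a s) * b s =
        ∫ s in Ioi (0 : ℝ), e (c * s + t * qq a s) * b s := by
      rw [setIntegral_eq_integral_of_forall_compl_eq_zero]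
      intro s hs
      have : b s = 0 := by
        by_contra hne
        exact hs (hb s hne).1
      rw [this, mul_zero]
    rw [h2]
    refine setIntegral_congr_fun measurableSet_Ioi fun s hs => ?_
    have hs0 : (0 : ℝ) < s := hs
    have h3 := qq_pos (a := a) hs0
    rw [kk_qq c b ha hs0, abs_of_pos (by positivity), e_add, Complex.real_smul]
    have h6 : ((s / qq a s : ℝ) : ℂ) * ((qq a s / s : ℝ) : ℂ) = 1 := by
      rw [← Complex.ofReal_mul]
      norm_cast
      field_simp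
    calc e (c * s) * e (t * qq a s) * b s
        = (((s / qq a s : ℝ) : ℂ) * ((qq a s / s : ℝ) : ℂ)) *
          (e (c * s) * e (t * qq a s) * b s) := by rw [h6, one_mul]
      _ = _ := by ring
  have hb2 : ∫⁻ y, ‖kk a c b y‖ₑ ^ 2 ≠ ⊤ := by
    have h1 : ∫⁻ y, ‖kk a c b y‖ₑ ^ 2 ≤ ∫⁻ y, ENNReal.ofReal (B / κ) * ‖kk a c b y‖ₑ := by
      refine lintegral_mono fun y => ?_
      rw [pow_two]
      have : ‖kk a c b y‖ₑ ≤ ENNReal.ofReal (B / κ) := by
        rw [← ofReal_norm]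
        exact ENNReal.ofReal_le_ofReal (hkb y)
      gcongr
    rw [lintegral_const_mul' _ _ ENNReal.ofReal_ne_top] at h1
    exact (h1.trans_lt (ENNReal.mul_lt_top ENNReal.ofReal_lt_top hki.2)).ne
  calc ∫⁻ t : ℝ, ‖∫ s : ℝ, e (c * s + t * qq a s) * b s‖ₑ ^ 2
      = ∫⁻ t : ℝ, ‖𝓕 (kk a c b) (-t)‖ₑ ^ 2 := lintegral_congr fun t => by rw [hEq]
    _ = ∫⁻ t : ℝ, ‖𝓕 (kk a c b) t‖ₑ ^ 2 :=
        lintegral_neg_eq_self (μ := (volume : Measure ℝ)) fun t => ‖𝓕 (kk a c b) t‖ₑ ^ 2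
    _ = ∫⁻ y, ‖kk a c b y‖ₑ ^ 2 :=
        plancherelE _ hki (memLp_two_of _ hkm.aestronglyMeasurable hb2)
    _ ≤ _ := hk2

/-- the evolution -/
noncomputable def UU {d : ℕ} (h : EE d → ℂ) (t : ℝ) (x : EE d) : ℂ :=
  ∫ ξ : EE d, e (inner ℝ x ξ + t * ‖ξ‖) * h ξ

theorem UU_cont {d : ℕ} {h : EE d → ℂ} (hi : Integrable h) :
    Continuous fun p : ℝ × EE d => UU h p.1 p.2 := by
  unfold UU
  apply continuous_of_dominated (bound := fun ξ => ‖h ξ‖)
  · intro p
    exact ((continuous_e.comp (by fun_prop)).aestronglyMeasurable).mul hi.1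
  · intro p
    refine ae_of_all _ fun ξ => ?_
    rw [norm_mul, norm_e, one_mul]
  · exact hi.norm
  · refine ae_of_all _ fun ξ => ?_
    exact (continuous_e.comp (by fun_prop)).mul continuous_const

/-- the inner integral -/
noncomputable def GG1 {n : ℕ} (h : EE (n + 1) → ℂ) (z t : ℝ) (η : EE n) : ℂ :=
  ∫ s : ℝ, e (z * s + t * qq ‖η‖ s) * h (jo η s)

theorem norm_jo {n : ℕ} (η : EE n) (s : ℝ) : ‖jo η s‖ = qq ‖η‖ s := by
  unfold qq
  rw [← jo_norm_sq, Real.sqrt_sq (norm_nonneg _)]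

theorem jo_integrable {n : ℕ} {h : EE (n + 1) → ℂ} (hi : Integrable h) :
    Integrable (fun q : EE n × ℝ => h (jo q.1 q.2)) (volume.prod volume) :=
  (mp_jo n).integrable_comp_of_integrable hi

theorem GG1_meas {n : ℕ} {h : EE (n + 1) → ℂ} (hm : Measurable h) (z : ℝ) :
    Measurable fun p : ℝ × EE n => GG1 h z p.1 p.2 := by
  have h1 : Measurable fun q : (ℝ × EE n) × ℝ =>
      e (z * q.2 + q.1.1 * qq ‖q.1.2‖ q.2) * h (jo q.1.2 q.2) := by
    have h2 : Measurable fun q : (ℝ × EE n) × ℝ => (q.1.2, q.2) := by fun_prop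
    have h3 : Measurable fun q : (ℝ × EE n) × ℝ => h (jo q.1.2 q.2) :=
      hm.comp (continuous_jo.measurable.comp h2)
    refine (measurable_e.comp ?_).mul h3
    unfold qq
    fun_prop
  exact (h1.stronglyMeasurable.integral_prod_right' (ν := volume)).measurable

theorem GG1_int {n : ℕ} {h : EE (n + 1) → ℂ} (hm : Measurable h) (hi : Integrable h) (z t : ℝ) :
    Integrable (GG1 h z t) := by
  have h0 : Integrable (fun q : EE n × ℝ => e (z * q.2 + t * qq ‖q.1‖ q.2) * h (jo q.1 q.2))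
      (volume.prod volume) := by
    apply (jo_integrable hi).bdd_mul (c := 1)
    · have : Measurable fun q : EE n × ℝ => e (z * q.2 + t * qq ‖q.1‖ q.2) := by
        refine measurable_e.comp ?_
        unfold qq
        fun_prop
      exact this.aestronglyMeasurable
    · exact Filter.Eventually.of_forall fun q => (norm_e _).le
  exact h0.integral_prod_left

theorem UU_jo {n : ℕ} {h : EE (n + 1) → ℂ} (hm : Measurable h) (hi : Integrable h) (y : EE n)
    (z t : ℝ) : UU h t (jo y z) = 𝓕 (GG1 h z t) (-y) := by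
  have h0 : Integrable (fun q : EE n × ℝ => e (inner ℝ (jo y z) (jo q.1 q.2) + t * ‖jo q.1 q.2‖) *
      h (jo q.1 q.2)) (volume.prod volume) := by
    apply (jo_integrable hi).bdd_mul (c := 1)
    · have : Measurable fun q : EE n × ℝ =>
          e (inner ℝ (jo y z) (jo q.1 q.2) + t * ‖jo q.1 q.2‖) := by
        refine measurable_e.comp ?_
        have := continuous_jo (n := n)
        fun_prop
      exact this.aestronglyMeasurable
    · exact Filter.Eventually.of_forall fun q => (norm_e _).le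
  have h1 : UU h t (jo y z) = ∫ q : EE n × ℝ, e (inner ℝ (jo y z) (jo q.1 q.2) +
      t * ‖jo q.1 q.2‖) * h (jo q.1 q.2) ∂(volume.prod volume) := by
    unfold UU
    have h2 : MeasurableEmbedding fun q : EE n × ℝ => jo q.1 q.2 := by
      have : (fun q : EE n × ℝ => jo q.1 q.2) = Pool.Agent.H87.LS.spl n := by
        funext q
        exact jo_eq_spl q.1 q.2
      rw [this]
      exact (Pool.Agent.H87.LS.spl n).measurableEmbedding
    exact ((mp_jo n).integral_comp h2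
      (fun ξ => e (inner ℝ (jo y z) ξ + t * ‖ξ‖) * h ξ)).symm
  rw [h1, integral_prod _ h0, fourier_e]
  refine integral_congr_ae (ae_of_all _ fun η => ?_)
  simp only
  unfold GG1
  rw [← integral_const_mul]
  refine integral_congr_ae (ae_of_all _ fun s => ?_)
  simp only
  rw [jo_inner, norm_jo, ← mul_assoc, ← e_add, inner_neg_right, neg_neg, real_inner_comm]
  congr 2
  ring

/-- energy on slabs for a symbol supported in the cone `κ |ξ| ≤ ξ_last` -/
theorem slab {n : ℕ} {κ T B : ℝ} (h : EE (n + 1) → ℂ) (hκ : 0 < κ) (hm : Measurable h)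
    (hi : Integrable h) (hB : ∀ ξ, ‖h ξ‖ ≤ B)
    (hs : ∀ ξ, h ξ ≠ 0 → 0 < ξ (Fin.last n) ∧ κ * ‖ξ‖ ≤ ξ (Fin.last n) ∧ ‖ξ‖ ≤ T) (δ : ℝ) :
    ∫⁻ t : ℝ, ∫⁻ x in {x : EE (n + 1) | |x (Fin.last n)| ≤ δ}, ‖UU h t x‖ₑ ^ 2 ≤
      ENNReal.ofReal (2 * δ) * (ENNReal.ofReal (1 / κ) * ∫⁻ x, ‖h x‖ₑ ^ 2) := by
  have hB0 : 0 ≤ B := (norm_nonneg _).trans (hB 0)
  have hUc := UU_cont hi
  have hm2 : Measurable fun p : ℝ × EE (n + 1) => ‖UU h p.1 p.2‖ₑ ^ 2 :=
    hUc.measurable.enorm.pow_const 2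
  have hS : MeasurableSet {x : EE (n + 1) | |x (Fin.last n)| ≤ δ} :=
    measurableSet_le (by fun_prop) measurable_const
  have h1 : ∀ t : ℝ, ∫⁻ x in {x : EE (n + 1) | |x (Fin.last n)| ≤ δ}, ‖UU h t x‖ₑ ^ 2 =
      ∫⁻ z in Icc (-δ) δ, ∫⁻ y : EE n, ‖UU h t (jo y z)‖ₑ ^ 2 := by
    intro t
    have hUt : Continuous fun x : EE (n + 1) => UU h t x :=
      hUc.comp (g := fun p : ℝ × EE (n + 1) => UU h p.1 p.2) (f := fun x => (t, x)) (by fun_prop)
    have hmt : Measurable fun x : EE (n + 1) => ‖UU h t x‖ₑ ^ 2 :=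
      hUt.measurable.enorm.pow_const 2
    have hjm : Measurable fun q : EE n × ℝ => {x : EE (n + 1) | |x (Fin.last n)| ≤ δ}.indicator
        (fun x => ‖UU h t x‖ₑ ^ 2) (jo q.1 q.2) :=
      (hmt.indicator hS).comp continuous_jo.measurable
    rw [← lintegral_indicator hS, ← (mp_jo n).lintegral_comp (hmt.indicator hS),
      lintegral_prod_symm' _ hjm, ← lintegral_indicator measurableSet_Icc]
    refine lintegral_congr fun z => ?_
    by_cases hz : z ∈ Icc (-δ) δ
    · rw [indicator_of_mem hz]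
      refine lintegral_congr fun y => ?_
      rw [indicator_of_mem]
      rw [mem_setOf_eq, jo_last]
      exact abs_le.2 hz
    · rw [indicator_of_notMem hz]
      have h0 : ∀ y : EE n, {x : EE (n + 1) | |x (Fin.last n)| ≤ δ}.indicator
          (fun x => ‖UU h t x‖ₑ ^ 2) (jo y z) = 0 := by
        intro y
        rw [indicator_of_notMem]
        rw [mem_setOf_eq, jo_last]
        exact fun h' => hz (abs_le.1 h')
      simp_rw [h0]
      exact lintegral_zero
  simp_rw [h1]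
  have hm3 : Measurable fun p : ℝ × ℝ => ∫⁻ y : EE n, ‖UU h p.1 (jo y p.2)‖ₑ ^ 2 := by
    apply Measurable.lintegral_prod_right'
      (f := fun q : (ℝ × ℝ) × EE n => ‖UU h q.1.1 (jo q.2 q.1.2)‖ₑ ^ 2)
    refine hm2.comp (g := fun p : ℝ × EE (n + 1) => ‖UU h p.1 p.2‖ₑ ^ 2)
      (f := fun q : (ℝ × ℝ) × EE n => (q.1.1, jo q.2 q.1.2)) ?_
    have := (continuous_jo (n := n)).measurable
    fun_prop
  rw [lintegral_lintegral_swap hm3.aemeasurable]
  have h2 : ∀ z : ℝ, ∫⁻ t : ℝ, ∫⁻ y : EE n, ‖UU h t (jo y z)‖ₑ ^ 2 ≤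
      ENNReal.ofReal (1 / κ) * ∫⁻ x, ‖h x‖ₑ ^ 2 := by
    intro z
    have hGm := GG1_meas hm z
    have hGt : ∀ t, Measurable (GG1 h z t) := fun t =>
      hGm.comp (g := fun p : ℝ × EE n => GG1 h z p.1 p.2) (f := fun η => (t, η)) (by fun_prop)
    have hGi := fun t => GG1_int hm hi z t
    have hbs : ∀ (η : EE n) (s : ℝ), h (jo η s) ≠ 0 → 0 < s ∧ κ * qq ‖η‖ s ≤ s ∧ qq ‖η‖ s ≤ T := by
      intro η s hne
      have := hs _ hne
      rwa [jo_last, norm_jo] at this
    have hGb : ∀ t η, ‖GG1 h z t η‖ ≤ 2 * |T| * B := by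
      intro t η
      have h3 : GG1 h z t η = ∫ s in Icc (-|T|) |T|, e (z * s + t * qq ‖η‖ s) * h (jo η s) := by
        unfold GG1
        rw [setIntegral_eq_integral_of_forall_compl_eq_zero]
        intro s hsn
        have : h (jo η s) = 0 := by
          by_contra hne
          obtain ⟨h4, -, h5⟩ := hbs η s hne
          apply hsn
          have h6 : s ≤ qq ‖η‖ s := by
            unfold qq
            apply Real.le_sqrt_of_sq_le
            nlinarith [sq_nonneg ‖η‖]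
          have h7 := le_abs_self T
          constructor <;> linarith
        rw [this, mul_zero]
      rw [h3]
      have h4 := norm_setIntegral_le_of_norm_le_const (μ := volume) (s := Icc (-|T|) |T|) (C := B)
        (f := fun s => e (z * s + t * qq ‖η‖ s) * h (jo η s)) (by simp)
        (fun s _ => by rw [norm_mul, norm_e, one_mul]; exact hB _)
      refine h4.trans (le_of_eq ?_)
      rw [Measure.real, Real.volume_Icc, ENNReal.toReal_ofReal (by have := abs_nonneg T; linarith)]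
      ring
    have hG2 : ∀ t, ∫⁻ η, ‖GG1 h z t η‖ₑ ^ 2 ≠ ⊤ := by
      intro t
      have h3 : ∫⁻ η, ‖GG1 h z t η‖ₑ ^ 2 ≤
          ∫⁻ η, ENNReal.ofReal (2 * |T| * B) * ‖GG1 h z t η‖ₑ := by
        refine lintegral_mono fun y => ?_
        rw [pow_two]
        have : ‖GG1 h z t y‖ₑ ≤ ENNReal.ofReal (2 * |T| * B) := by
          rw [← ofReal_norm]
          exact ENNReal.ofReal_le_ofReal (hGb t y)
        gcongr
      rw [lintegral_const_mul' _ _ ENNReal.ofReal_ne_top] at h3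
      exact (h3.trans_lt (ENNReal.mul_lt_top ENNReal.ofReal_lt_top (hGi t).2)).ne
    have h3 : ∀ t, ∫⁻ y : EE n, ‖UU h t (jo y z)‖ₑ ^ 2 = ∫⁻ η, ‖GG1 h z t η‖ₑ ^ 2 := by
      intro t
      calc ∫⁻ y : EE n, ‖UU h t (jo y z)‖ₑ ^ 2 = ∫⁻ y : EE n, ‖𝓕 (GG1 h z t) (-y)‖ₑ ^ 2 :=
            lintegral_congr fun y => by rw [UU_jo hm hi]
        _ = ∫⁻ y : EE n, ‖𝓕 (GG1 h z t) y‖ₑ ^ 2 :=
            lintegral_neg_eq_self (μ := (volume : Measure (EE n)))
              fun y => ‖𝓕 (GG1 h z t) y‖ₑ ^ 2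
        _ = _ := plancherelE _ (hGi t)
            (memLp_two_of _ (hGt t).aestronglyMeasurable (hG2 t))
    simp_rw [h3]
    rw [lintegral_lintegral_swap (hGm.enorm.pow_const 2).aemeasurable]
    have h4 : ∀ η : EE n, ∫⁻ t : ℝ, ‖GG1 h z t η‖ₑ ^ 2 ≤
        ENNReal.ofReal (1 / κ) * ∫⁻ s, ‖h (jo η s)‖ₑ ^ 2 := by
      intro η
      have h5 : Measurable fun s : ℝ => (η, s) := by fun_prop
      have h6 : Measurable fun s : ℝ => h (jo η s) :=
        hm.comp (continuous_jo.measurable.comp h5)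
      exact oneD z (fun s => h (jo η s)) (norm_nonneg η) hκ h6 (fun s => hB _)
        (fun s => hbs η s)
    refine (lintegral_mono h4).trans ?_
    rw [lintegral_const_mul' _ _ ENNReal.ofReal_ne_top]
    have h5 : ∫⁻ η : EE n, ∫⁻ s : ℝ, ‖h (jo η s)‖ₑ ^ 2 = ∫⁻ x, ‖h x‖ₑ ^ 2 := by
      have hmh : Measurable fun x => ‖h x‖ₑ ^ 2 := hm.enorm.pow_const 2
      have hmj : Measurable fun q : EE n × ℝ => ‖h (jo q.1 q.2)‖ₑ ^ 2 :=
        hmh.comp continuous_jo.measurable
      rw [← (mp_jo n).lintegral_comp hmh, lintegral_prod _ hmj.aemeasurable]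
    rw [h5]
  refine (lintegral_mono h2).trans (le_of_eq ?_)
  rw [lintegral_const, Measure.restrict_apply_univ, Real.volume_Icc, mul_comm]
  congr 2
  ring

end TZ

/-- module TZ -/
theorem pf_tz : T_TZ := by
  intro n hn
  refine ⟨16, ?_⟩
  intro lam M δ A m f hl hM hM4 hδ hm hm1 hms hf
  obtain ⟨hfm, hfi, hfA⟩ := hf
  have hl0 : 0 < lam := by linarith
  have hA0 : 0 ≤ A := (norm_nonneg _).trans (hfA 0)
  set h : EE (n + 1) → ℂ := fun ξ => m ξ * ((chis (ξ (Fin.last n) / M) : ℝ) : ℂ) * 𝓕 f ξ with hh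
  have hfb : ∀ ξ, ‖𝓕 f ξ‖ ≤ ∫ y, ‖f y‖ := by
    intro ξ
    rw [fourier_e]
    refine (norm_integral_le_integral_norm _).trans (le_of_eq ?_)
    congr 1
    ext y
    rw [norm_mul, norm_e, one_mul]
  have hfc : Continuous (𝓕 f) := fourier_cont f hfi
  have hcm : Measurable fun ξ : EE (n + 1) => ((chis (ξ (Fin.last n) / M) : ℝ) : ℂ) := by
    apply Complex.measurable_ofReal.comp
    exact Pool.Agent.H19.LS.chis_smooth.continuous.measurable.comp (by fun_prop)
  have hcb : ∀ ξ : EE (n + 1), ‖((chis (ξ (Fin.last n) / M) : ℝ) : ℂ)‖ ≤ 1 := by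
    intro ξ
    rw [Complex.norm_real, Real.norm_eq_abs]
    exact Pool.Agent.H19.LS.chis_abs _
  have hhm : Measurable h := (hm.mul hcm).mul hfc.measurable
  have hmc : ∀ ξ : EE (n + 1), ‖m ξ * ((chis (ξ (Fin.last n) / M) : ℝ) : ℂ)‖ ≤ 1 := by
    intro ξ
    rw [norm_mul]
    exact mul_le_one₀ (hm1 ξ) (norm_nonneg _) (hcb ξ)
  have hhB : ∀ ξ, ‖h ξ‖ ≤ ∫ y, ‖f y‖ := by
    intro ξ
    simp only [hh]
    rw [norm_mul]
    calc _ ≤ 1 * ∫ y, ‖f y‖ :=
          mul_le_mul (hmc ξ) (hfb ξ) (norm_nonneg _) zero_le_one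
      _ = _ := one_mul _
  have hhs : ∀ ξ, h ξ ≠ 0 → M / 4 ≤ ξ (Fin.last n) ∧ ‖ξ‖ ≤ 2 * lam := by
    intro ξ hne
    simp only [hh] at hne
    have h1 := hms ξ (left_ne_zero_of_mul (left_ne_zero_of_mul hne))
    have h2 := right_ne_zero_of_mul (left_ne_zero_of_mul hne)
    have h3 : chis (ξ (Fin.last n) / M) ≠ 0 := by
      intro h0
      apply h2
      rw [h0, Complex.ofReal_zero]
    have h4 := (Pool.Agent.H19.LS.chis_supp _ h3).1
    rw [le_div_iff₀ hM] at h4
    exact ⟨by linarith, h1.2⟩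
  have hhi : Integrable h := by
    have h1 : IntegrableOn h (Metric.closedBall 0 (2 * lam)) :=
      Measure.integrableOn_of_bounded (M := ∫ y, ‖f y‖)
        (isCompact_closedBall (0 : EE (n + 1)) (2 * lam)).measure_lt_top.ne
        hhm.aestronglyMeasurable (Filter.Eventually.of_forall hhB)
    refine (integrableOn_iff_integrable_of_support_subset (fun y hy => ?_)).1 h1
    rw [mem_closedBall_zero_iff]
    exact (hhs y hy).2
  have hU : ∀ t x, MM (fun ξ => e (t * ‖ξ‖) * m ξ * ((chis (ξ (Fin.last n) / M) : ℝ) : ℂ)) f x =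
      TZ.UU h t x := by
    intro t x
    unfold MM TZ.UU
    refine integral_congr_ae (ae_of_all _ fun ξ => ?_)
    simp only [hh]
    rw [e_add]
    ring
  simp_rw [hU]
  have h1 := TZ.slab (κ := M / (8 * lam)) (T := 2 * lam) h (by positivity) hhm hhi hhB
    (fun ξ hne => by
      obtain ⟨h2, h3⟩ := hhs ξ hne
      refine ⟨by linarith, ?_, h3⟩
      calc M / (8 * lam) * ‖ξ‖ ≤ M / (8 * lam) * (2 * lam) := by gcongr
        _ = M / 4 := by field_simp; ring
        _ ≤ _ := h2) δ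
  have h2 : ∫⁻ ξ, ‖h ξ‖ₑ ^ 2 ≤ ∫⁻ x, ‖f x‖ₑ ^ 2 := by
    have hf2 : ∫⁻ y, ‖f y‖ₑ ^ 2 ≠ ⊤ := by
      have h1 : ∫⁻ y, ‖f y‖ₑ ^ 2 ≤ ∫⁻ y, ENNReal.ofReal A * ‖f y‖ₑ := by
        refine lintegral_mono fun y => ?_
        rw [pow_two]
        have : ‖f y‖ₑ ≤ ENNReal.ofReal A := by
          rw [← ofReal_norm]
          exact ENNReal.ofReal_le_ofReal (hfA y)
        gcongr
      rw [lintegral_const_mul' _ _ ENNReal.ofReal_ne_top] at h1
      exact (h1.trans_lt (ENNReal.mul_lt_top ENNReal.ofReal_lt_top hfi.2)).ne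
    rw [← plancherelE f hfi (memLp_two_of f hfm.aestronglyMeasurable hf2)]
    refine lintegral_mono fun ξ => ?_
    simp only [hh]
    rw [enorm_mul, mul_pow]
    have h3 : ‖m ξ * ((chis (ξ (Fin.last n) / M) : ℝ) : ℂ)‖ₑ ≤ 1 := by
      rw [← ofReal_norm, ← ENNReal.ofReal_one]
      exact ENNReal.ofReal_le_ofReal (hmc ξ)
    calc ‖m ξ * ((chis (ξ (Fin.last n) / M) : ℝ) : ℂ)‖ₑ ^ 2 * ‖𝓕 f ξ‖ₑ ^ 2
        ≤ 1 ^ 2 * ‖𝓕 f ξ‖ₑ ^ 2 := by gcongr
      _ = _ := by rw [one_pow, one_mul]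
  refine (setLIntegral_le_lintegral _ _).trans (h1.trans ?_)
  calc ENNReal.ofReal (2 * δ) * (ENNReal.ofReal (1 / (M / (8 * lam))) * ∫⁻ x, ‖h x‖ₑ ^ 2)
      ≤ ENNReal.ofReal (2 * δ) * (ENNReal.ofReal (1 / (M / (8 * lam))) * ∫⁻ x, ‖f x‖ₑ ^ 2) := by
        gcongr
    _ = ENNReal.ofReal (16 * (δ * lam / M)) * ∫⁻ x, ‖f x‖ₑ ^ 2 := by
        rw [← mul_assoc, ← ENNReal.ofReal_mul (by positivity)]
        congr 2
        field_simp
        ring
    _ = _ := by
        rw [ENNReal.ofReal_mul (by norm_num)]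
        congr 2
        norm_num

end Pool.Agent.H60.BR
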